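import Mathlib

/-!
# Window-two cellular automata: the families of minimal state sets

`f : A → A → A` is the local rule, `(CA f x) i = f (x i) (x (i + 1))`.
-/

open Finset

namespace PermCA

variable {A : Type} [Fintype A] [DecidableEq A]

/-- The cellular automaton of window two with local rule `f`. -/
def CA {A : Type} (f : A → A → A) (x : ℤ → A) : ℤ → A := fun i => f (x i) (x (i + 1))

/-- Left permutive: for every right neighbour the map `a ↦ f a b` is a permutation. -/
def LPerm {A : Type} (f : A → A → A) : Prop := ∀ b, Function.Bijective fun a => f a b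

/-- Right permutive. -/
def RPerm {A : Type} (f : A → A → A) : Prop := ∀ a, Function.Bijective fun b => f a b

/-- The reflected rule. -/
def fl {A : Type} (f : A → A → A) : A → A → A := fun a b => f b a

omit [Fintype A] [DecidableEq A] in
@[simp] theorem fl_fl (f : A → A → A) : fl (fl f) = f := rfl

/-- The states reached from `S` by an edge with label `c`. -/
def act (f : A → A → A) (S : Finset A) (c : A) : Finset A :=
  univ.filter fun b => ∃ a ∈ S, f a b = c

theorem mem_act {f : A → A → A} {S : Finset A} {c b : A} :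
    b ∈ act f S c ↔ ∃ a ∈ S, f a b = c := by simp [act]

/-- The states reached from `S` by a path with label `w`. -/
def actW (f : A → A → A) (S : Finset A) (w : List A) : Finset A := w.foldl (act f) S

@[simp] theorem actW_nil (f : A → A → A) (S : Finset A) : actW f S [] = S := rfl

@[simp] theorem actW_cons (f : A → A → A) (S : Finset A) (c : A) (w : List A) :
    actW f S (c :: w) = actW f (act f S c) w := rfl

theorem actW_append (f : A → A → A) (S : Finset A) (u w : List A) :
    actW f S (u ++ w) = actW f (actW f S u) w := by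
  simp [actW, List.foldl_append]

theorem act_mono {f : A → A → A} {S T : Finset A} (h : S ⊆ T) (c : A) : act f S c ⊆ act f T c := by
  intro b hb
  rw [mem_act] at hb ⊢
  obtain ⟨a, ha, hab⟩ := hb
  exact ⟨a, h ha, hab⟩

theorem actW_mono {f : A → A → A} (w : List A) : ∀ {S T : Finset A}, S ⊆ T →
    actW f S w ⊆ actW f T w := by
  induction w with
  | nil => intro S T h; simpa using h
  | cons c w ih => intro S T h; exact ih (act_mono h c)

/-- The property of the rules which we use (it holds when `CA f` is surjective): every word is the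
label of a path. -/
def Full (f : A → A → A) : Prop := ∀ w, (actW f univ w).Nonempty

theorem mem_actW_path (f : A → A → A) (x : ℤ → A) : ∀ (w : List A) (S : Finset A) (s : ℤ),
    x s ∈ S → (∀ (i : ℕ) (hi : i < w.length), f (x (s + i)) (x (s + i + 1)) = w[i]) →
    x (s + w.length) ∈ actW f S w := by
  intro w
  induction w with
  | nil => intro S s hs _; simpa using hs
  | cons c w ih =>
    intro S s hs h
    rw [actW_cons]
    have h0 := h 0 (by simp)
    simp only [Nat.cast_zero, add_zero, List.getElem_cons_zero] at h0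
    have h1 : x (s + 1) ∈ act f S c := mem_act.2 ⟨x s, hs, h0⟩
    have h2 := ih (act f S c) (s + 1) h1 (by
      intro i hi
      have := h (i + 1) (by simp; omega)
      simp only [Nat.cast_add, Nat.cast_one, List.getElem_cons_succ] at this
      rw [← this]
      congr 2 <;> ring)
    have e : s + 1 + (w.length : ℤ) = s + ((c :: w).length : ℕ) := by
      simp only [List.length_cons, Nat.cast_add, Nat.cast_one]; ring
    rw [e] at h2
    exact h2

theorem full_of_surjective [Nonempty A] {f : A → A → A} (h : Function.Surjective (CA f)) :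
    Full f := by
  intro w
  obtain ⟨x, hx⟩ := h fun i => w.getD i.toNat (Classical.arbitrary A)
  refine ⟨x (0 + w.length), mem_actW_path f x w univ 0 (mem_univ _) ?_⟩
  intro i hi
  have := congrFun hx (i : ℤ)
  simp only [CA] at this
  rw [zero_add, this]
  simp [hi]

omit [Fintype A] [DecidableEq A] in
theorem surjective_fl {f : A → A → A} (h : Function.Surjective (CA f)) :
    Function.Surjective (CA (fl f)) := by
  intro y
  obtain ⟨x, hx⟩ := h fun i => y (-i - 1)
  refine ⟨fun i => x (-i), funext fun i => ?_⟩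
  have := congrFun hx (-i - 1)
  simp only [CA] at this
  simp only [CA, fl]
  have e1 : -(i + 1) = -i - 1 := by ring
  have e2 : -i = -i - 1 + 1 := by ring
  have e3 : i = -(-i - 1) - 1 := by ring
  rw [e1]
  conv_lhs => rw [e2]
  have e4 : (-i - 1 + 1 - 1 : ℤ) = -i - 1 := by ring
  rw [e4, this, ← e3]

/-- The sets `A · w` of least size. -/
def Fam (f : A → A → A) : Set (Finset A) :=
  {P | (∃ w, P = actW f univ w) ∧ ∀ w, P.card ≤ (actW f univ w).card}

theorem fam_nonempty (f : A → A → A) : (Fam f).Nonempty := by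
  obtain ⟨w, hw⟩ := exists_minimal_card f
  exact ⟨actW f univ w, ⟨w, rfl⟩, hw⟩
where
  exists_minimal_card (f : A → A → A) :
      ∃ w, ∀ w', (actW f univ w).card ≤ (actW f univ w').card := by
    have hne : (Set.range fun w : List A => (actW f univ w).card).Nonempty := ⟨_, [], rfl⟩
    obtain ⟨w, hw⟩ := Nat.sInf_mem hne
    refine ⟨w, fun w' => ?_⟩
    have : (fun w : List A => (actW f univ w).card) w = _ := hw
    simp only at this
    rw [this]
    exact Nat.sInf_le ⟨w', rfl⟩

theorem fam_card {f : A → A → A} {P P' : Finset A} (h : P ∈ Fam f) (h' : P' ∈ Fam f) :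
    P.card = P'.card := by
  obtain ⟨⟨w, hw⟩, hm⟩ := h
  obtain ⟨⟨w', hw'⟩, hm'⟩ := h'
  apply le_antisymm
  · rw [hw']; exact hm w'
  · rw [hw]; exact hm' w

theorem sum_card_act (f : A → A → A) (P : Finset A) :
    ∑ c, (act f P c).card = ∑ b, (P.image fun a => f a b).card := by
  have h1 : ∑ c, (act f P c).card
      = ∑ c, ∑ b, if (∃ a ∈ P, f a b = c) then 1 else 0 := by
    refine sum_congr rfl fun c _ => ?_
    rw [act, card_filter]
  have h2 : ∀ b, (P.image fun a => f a b).card
      = ∑ c, if (∃ a ∈ P, f a b = c) then 1 else 0 := by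
    intro b
    rw [← card_filter]
    congr 1
    ext c
    simp
  rw [h1, sum_comm]
  exact (sum_congr rfl fun b _ => h2 b).symm

theorem fam_act {f : A → A → A} {P : Finset A} (h : P ∈ Fam f) :
    (∀ c, act f P c ∈ Fam f) ∧ ∀ b, Set.InjOn (fun a => f a b) P := by
  obtain ⟨⟨w, hw⟩, hm⟩ := h
  have hact : ∀ c, act f P c = actW f univ (w ++ [c]) := by
    intro c
    rw [actW_append, ← hw]
    rfl
  have h1 : ∀ c ∈ (univ : Finset A), P.card ≤ (act f P c).card := by
    intro c _
    rw [hact]
    exact hm _
  have h2 : ∀ b ∈ (univ : Finset A), (P.image fun a => f a b).card ≤ P.card :=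
    fun b _ => card_image_le
  have e1 : ∑ _c : A, P.card ≤ ∑ c, (act f P c).card := sum_le_sum h1
  have e2 : ∑ b, (P.image fun a => f a b).card ≤ ∑ _b : A, P.card := sum_le_sum h2
  have e3 := sum_card_act f P
  have e4 : ∑ _c : A, P.card = ∑ c, (act f P c).card := le_antisymm e1 (e3.trans_le e2)
  have e5 : ∑ b, (P.image fun a => f a b).card = ∑ _b : A, P.card :=
    le_antisymm e2 (e1.trans_eq e3)
  have h3 := (sum_eq_sum_iff_of_le h1).1 e4
  have h4 := (sum_eq_sum_iff_of_le h2).1 e5
  refine ⟨fun c => ⟨⟨w ++ [c], hact c⟩, fun w' => ?_⟩, fun b => ?_⟩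
  · rw [← h3 c (mem_univ _)]
    exact hm w'
  · exact card_image_iff.1 (h4 b (mem_univ _))

theorem fam_actW {f : A → A → A} (w : List A) : ∀ {P : Finset A}, P ∈ Fam f →
    actW f P w ∈ Fam f := by
  induction w with
  | nil => intro P h; simpa using h
  | cons c w ih => intro P h; exact ih ((fam_act h).1 c)

theorem fam_mem_nonempty {f : A → A → A} (hf : Full f) {P : Finset A} (h : P ∈ Fam f) :
    P.Nonempty := by
  obtain ⟨⟨w, hw⟩, _⟩ := h
  rw [hw]
  exact hf w

theorem fam_cover {f : A → A → A} (hf : Full f) (a : A) : ∃ P ∈ Fam f, a ∈ P := by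
  obtain ⟨P, hP⟩ := fam_nonempty f
  obtain ⟨b, hb⟩ := fam_mem_nonempty hf hP
  exact ⟨_, (fam_act hP).1 (f b a), mem_act.2 ⟨b, hb, rfl⟩⟩

theorem fam_sync {f : A → A → A} {P P' : Finset A} (h : P ∈ Fam f) (h' : P' ∈ Fam f)
    {u : List A} (hu : P = actW f univ u) : actW f P' u = P := by
  apply eq_of_subset_of_card_le
  · rw [hu]
    exact actW_mono u (subset_univ _)
  · rw [fam_card h (fam_actW u h')]

/-- If the rule is not left permutive then the minimal sets have at most half the size. -/
theorem fam_half {f : A → A → A} (hnl : ¬ LPerm f) {P : Finset A} (h : P ∈ Fam f) :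
    2 * P.card ≤ Fintype.card A := by
  unfold LPerm at hnl
  push Not at hnl
  obtain ⟨b0, hb0⟩ := hnl
  have hni : ¬ Function.Injective fun a => f a b0 := fun hi =>
    hb0 (Finite.injective_iff_bijective.1 hi)
  unfold Function.Injective at hni
  push Not at hni
  obtain ⟨a, a', he, hne⟩ := hni
  have hdis : Disjoint (P.image fun x => f x a) (P.image fun x => f x a') := by
    rw [Finset.disjoint_left]
    intro c hc hc'
    rw [mem_image] at hc hc'
    obtain ⟨x, hx, hxa⟩ := hc
    obtain ⟨y, hy, hya⟩ := hc'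
    have h1 := (fam_act h).1 c
    have h2 := (fam_act h1).2 b0
    have h3 : a ∈ act f P c := mem_act.2 ⟨x, hx, hxa⟩
    have h4 : a' ∈ act f P c := mem_act.2 ⟨y, hy, hya⟩
    exact hne (h2 h3 h4 he)
  have h1 : (P.image fun x => f x a).card = P.card := card_image_iff.2 ((fam_act h).2 a)
  have h2 : (P.image fun x => f x a').card = P.card := card_image_iff.2 ((fam_act h).2 a')
  have h3 := card_union_of_disjoint hdis
  have h4 : ((P.image fun x => f x a) ∪ (P.image fun x => f x a')).card ≤ Fintype.card A :=
    card_le_univ _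
  omega

/-- Both sides count the edges from `P` to `Q` with label `c`. -/
theorem dual_step {f : A → A → A} {P Q : Finset A} (hP : P ∈ Fam f) (hQ : Q ∈ Fam (fl f)) (c : A) :
    (act f P c ∩ Q).card = (P ∩ act (fl f) Q c).card := by
  have h1 : (act f P c ∩ Q).card = ((P ×ˢ Q).filter fun z => f z.1 z.2 = c).card := by
    symm
    apply card_bij (fun z _ => z.2)
    · intro z hz
      simp only [mem_filter, mem_product] at hz
      exact mem_inter.2 ⟨mem_act.2 ⟨z.1, hz.1.1, hz.2⟩, hz.1.2⟩
    · intro z hz z' hz' he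
      simp only [mem_filter, mem_product] at hz hz'
      have := (fam_act hP).2 z.2 (mem_coe.2 hz.1.1) (mem_coe.2 hz'.1.1) (by
        show f z.1 z.2 = f z'.1 z.2
        rw [hz.2, he, hz'.2])
      exact Prod.ext this he
    · intro b hb
      rw [mem_inter, mem_act] at hb
      obtain ⟨⟨a, ha, hab⟩, hbQ⟩ := hb
      exact ⟨(a, b), by simp [ha, hab, hbQ], rfl⟩
  have h2 : (P ∩ act (fl f) Q c).card = ((P ×ˢ Q).filter fun z => f z.1 z.2 = c).card := by
    symm
    apply card_bij (fun z _ => z.1)
    · intro z hz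
      simp only [mem_filter, mem_product] at hz
      exact mem_inter.2 ⟨hz.1.1, mem_act.2 ⟨z.2, hz.1.2, hz.2⟩⟩
    · intro z hz z' hz' he
      simp only [mem_filter, mem_product] at hz hz'
      have := (fam_act hQ).2 z.1 (mem_coe.2 hz.1.2) (mem_coe.2 hz'.1.2) (by
        show f z.1 z.2 = f z.1 z'.2
        rw [hz.2, he, hz'.2])
      exact Prod.ext he this
    · intro a ha
      rw [mem_inter, mem_act] at ha
      obtain ⟨haP, b, hb, hab⟩ := ha
      exact ⟨(a, b), by simp only [mem_filter, mem_product]; exact ⟨⟨haP, hb⟩, hab⟩, rfl⟩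
  rw [h1, h2]

theorem dual_word {f : A → A → A} {Q : Finset A} (hQ : Q ∈ Fam (fl f)) (w : List A) :
    ∀ {P : Finset A}, P ∈ Fam f →
    (actW f P w ∩ Q).card = (P ∩ actW (fl f) Q w.reverse).card := by
  induction w with
  | nil => intro P _; simp
  | cons c w ih =>
    intro P hP
    rw [actW_cons, ih ((fam_act hP).1 c), dual_step hP (fam_actW _ hQ), List.reverse_cons,
      actW_append]
    rfl

/-- The number of common states of a member of the left and a member of the right family is
constant. -/
theorem card_inter_const {f : A → A → A} {P₁ P₂ Q₁ Q₂ : Finset A} (hP₁ : P₁ ∈ Fam f)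
    (hP₂ : P₂ ∈ Fam f) (hQ₁ : Q₁ ∈ Fam (fl f)) (hQ₂ : Q₂ ∈ Fam (fl f)) :
    (P₁ ∩ Q₁).card = (P₂ ∩ Q₂).card := by
  obtain ⟨⟨u, hu⟩, _⟩ := id hP₁
  obtain ⟨⟨v, hv⟩, _⟩ := id hQ₂
  have h := dual_word hQ₁ (v.reverse ++ u) hP₂
  rw [actW_append, fam_sync hP₁ (fam_actW _ hP₂) hu, List.reverse_append, List.reverse_reverse,
    actW_append, fam_sync hQ₂ (fam_actW _ hQ₁) hv] at h
  exact h

end PermCA
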