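import Pool.Agent.Lib_c1afad_ap.Main

/-!
# The number of surjective rules is asymptotic to `2 (n!)^n`
-/

open Finset Real

namespace PermCA

theorem ncard_lperm (n : ℕ) : {f : Fin n → Fin n → Fin n | LPerm f}.ncard = n.factorial ^ n := by
  classical
  let ψ : (Fin n → Equiv.Perm (Fin n)) → (Fin n → Fin n → Fin n) := fun σ a b => σ b a
  have hinj : Function.Injective ψ := by
    intro σ τ h
    funext b
    ext a
    have := congrFun (congrFun h a) b
    simp only [ψ] at this
    rw [this]
  have hrange : Set.range ψ = {f : Fin n → Fin n → Fin n | LPerm f} := by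
    ext f
    constructor
    · rintro ⟨σ, rfl⟩
      exact fun b => (σ b).bijective
    · intro h
      exact ⟨fun b => Equiv.ofBijective _ (h b), rfl⟩
  rw [← hrange, ← Set.image_univ, Set.ncard_image_of_injective _ hinj, Set.ncard_univ,
    Nat.card_eq_fintype_card, Fintype.card_fun, Fintype.card_perm, Fintype.card_fin]

theorem ncard_rperm (n : ℕ) : {f : Fin n → Fin n → Fin n | RPerm f}.ncard = n.factorial ^ n := by
  rw [← ncard_lperm]
  have h : {f : Fin n → Fin n → Fin n | RPerm f} = fl '' {f : Fin n → Fin n → Fin n | LPerm f} := by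
    ext f
    constructor
    · intro hf
      exact ⟨fl f, hf, rfl⟩
    · rintro ⟨g, hg, rfl⟩
      exact hg
  rw [h]
  refine Set.ncard_image_of_injective _ fun f g he => ?_
  have := congrArg fl he
  simpa using this

theorem card_perm_fiber {n : ℕ} (a c : Fin n) :
    n * (univ.filter fun g : Equiv.Perm (Fin n) => g a = c).card = n.factorial := by
  classical
  have hsame : ∀ c', (univ.filter fun g : Equiv.Perm (Fin n) => g a = c').card
      = (univ.filter fun g : Equiv.Perm (Fin n) => g a = c).card := by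
    intro c'
    apply card_bij (fun g _ => Equiv.swap c c' * g)
    · intro g hg
      simp only [mem_filter, mem_univ, true_and] at hg ⊢
      rw [Equiv.Perm.mul_apply, hg, Equiv.swap_apply_right]
    · intro g _ g' _ h
      exact mul_left_cancel h
    · intro g hg
      simp only [mem_filter, mem_univ, true_and] at hg
      refine ⟨Equiv.swap c c' * g, ?_, ?_⟩
      · simp only [mem_filter, mem_univ, true_and]
        rw [Equiv.Perm.mul_apply, hg, Equiv.swap_apply_left]
      · rw [← mul_assoc, Equiv.swap_mul_self, one_mul]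
  have h1 := card_eq_sum_card_fiberwise (f := fun g : Equiv.Perm (Fin n) => g a)
    (s := (univ : Finset (Equiv.Perm (Fin n)))) (t := univ) (fun _ _ => mem_coe.2 (mem_univ _))
  rw [card_univ, Fintype.card_perm, Fintype.card_fin] at h1
  rw [h1, sum_congr rfl fun c' _ => hsame c', sum_const, card_univ, Fintype.card_fin, smul_eq_mul]

theorem ncard_both (n : ℕ) (hn : 1 ≤ n) :
    n ^ n * {f : Fin n → Fin n → Fin n | LPerm f ∧ RPerm f}.ncard ≤ n.factorial ^ n * n.factorial := by
  classical
  let a₀ : Fin n := ⟨0, hn⟩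
  let S : Finset (Fin n → Equiv.Perm (Fin n)) :=
    univ.filter fun σ => Function.Injective fun b => σ b a₀
  let T : Finset (Fin n → Fin n) := univ.filter fun τ => Function.Injective τ
  let ψ : (Fin n → Equiv.Perm (Fin n)) → (Fin n → Fin n → Fin n) := fun σ a b => σ b a
  have hsub : {f : Fin n → Fin n → Fin n | LPerm f ∧ RPerm f} ⊆ ((S.image ψ : Finset _) : Set _) := by
    rintro f ⟨hl, hr⟩
    rw [mem_coe, mem_image]
    refine ⟨fun b => Equiv.ofBijective _ (hl b), ?_, rfl⟩
    simp only [S, mem_filter, mem_univ, true_and]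
    exact (hr a₀).1
  have h1 : {f : Fin n → Fin n → Fin n | LPerm f ∧ RPerm f}.ncard ≤ S.card := by
    calc _ ≤ ((S.image ψ : Finset _) : Set _).ncard := Set.ncard_le_ncard hsub (Set.toFinite _)
      _ = (S.image ψ).card := Set.ncard_coe_finset _
      _ ≤ S.card := card_image_le
  have hT : T.card = n.factorial := by
    have h := Fintype.card_congr (Equiv.subtypeInjectiveEquivEmbedding (Fin n) (Fin n))
    rw [Fintype.card_embedding_eq, Fintype.card_fin, Nat.descFactorial_self,
      Fintype.card_subtype] at h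
    convert h
  let q : ℕ := (univ.filter fun g : Equiv.Perm (Fin n) => g a₀ = a₀).card
  have hq : ∀ c, (univ.filter fun g : Equiv.Perm (Fin n) => g a₀ = c).card = q := by
    intro c
    have h2 := card_perm_fiber a₀ c
    have h3 := card_perm_fiber a₀ a₀
    exact Nat.eq_of_mul_eq_mul_left hn (h2.trans h3.symm)
  have hS : S.card ≤ q ^ n * T.card := by
    apply card_le_mul_card_image_of_maps_to (f := fun σ : Fin n → Equiv.Perm (Fin n) =>
      fun b => σ b a₀)
    · intro σ hσ
      simp only [S, T, mem_filter, mem_univ, true_and] at hσ ⊢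
      exact hσ
    · intro τ _
      have hsub2 : (S.filter fun σ => (fun b => σ b a₀) = τ) ⊆
          Fintype.piFinset fun b => univ.filter fun g : Equiv.Perm (Fin n) => g a₀ = τ b := by
        intro σ hσ
        rw [mem_filter] at hσ
        rw [Fintype.mem_piFinset]
        intro b
        simp only [mem_filter, mem_univ, true_and]
        exact congrFun hσ.2 b
      refine (card_le_card hsub2).trans ?_
      rw [Fintype.card_piFinset, prod_congr rfl fun b _ => hq (τ b), prod_const, card_univ,
        Fintype.card_fin]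
  have hq2 : n * q = n.factorial := card_perm_fiber a₀ a₀
  calc n ^ n * {f : Fin n → Fin n → Fin n | LPerm f ∧ RPerm f}.ncard
      ≤ n ^ n * (q ^ n * n.factorial) := by
        rw [← hT]
        exact Nat.mul_le_mul_left _ (h1.trans hS)
    _ = (n * q) ^ n * n.factorial := by rw [mul_pow]; ring
    _ = n.factorial ^ n * n.factorial := by rw [hq2]

theorem surj_eq (n : ℕ) : SurjR n = ({f | LPerm f} ∪ {f | RPerm f}) ∪ BadR n := by
  ext f
  constructor
  · intro hf
    by_cases hl : LPerm f
    · exact Or.inl (Or.inl hl)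
    by_cases hr : RPerm f
    · exact Or.inl (Or.inr hr)
    exact Or.inr ⟨hf, hl, hr⟩
  · rintro ((h | h) | h)
    · exact surjective_of_lperm h
    · exact surjective_of_rperm h
    · exact h.1

theorem tendsto_ratio : Filter.Tendsto (fun n : ℕ => ((SurjR n).ncard : ℝ) / (n.factorial : ℝ) ^ n)
    Filter.atTop (nhds 2) := by
  obtain ⟨n₀, hn₀⟩ := bad_le (ε := 1 / 2) (by norm_num)
  have hlow : Filter.Tendsto (fun n : ℕ => 2 - (n.factorial : ℝ) / (n : ℝ) ^ n) Filter.atTop
      (nhds 2) := by
    have := tendsto_factorial_div_pow_self_atTop.const_sub (2 : ℝ)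
    simpa using this
  have hup : Filter.Tendsto (fun n : ℕ => 2 + (1 / 2 : ℝ) ^ n) Filter.atTop (nhds 2) := by
    have h1 : Filter.Tendsto (fun n : ℕ => (1 / 2 : ℝ) ^ n) Filter.atTop (nhds 0) :=
      tendsto_pow_atTop_nhds_zero_of_lt_one (by norm_num) (by norm_num)
    have := h1.const_add (2 : ℝ)
    simpa using this
  refine tendsto_of_tendsto_of_tendsto_of_le_of_le' hlow hup ?_ ?_
  · filter_upwards [Filter.eventually_ge_atTop 1] with n hn
    have hn0 : (0 : ℝ) < (n : ℝ) ^ n := by
      have : (0 : ℝ) < n := by exact_mod_cast hn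
      positivity
    have hf : (0 : ℝ) < (n.factorial : ℝ) ^ n := by
      have : (0 : ℝ) < (n.factorial : ℝ) := by exact_mod_cast Nat.factorial_pos n
      positivity
    have h1 := Set.ncard_union_add_ncard_inter {f : Fin n → Fin n → Fin n | LPerm f} {f | RPerm f}
    rw [ncard_lperm, ncard_rperm] at h1
    have h2 : ({f : Fin n → Fin n → Fin n | LPerm f} ∪ {f | RPerm f}).ncard ≤ (SurjR n).ncard := by
      rw [surj_eq]
      exact Set.ncard_le_ncard Set.subset_union_left (Set.toFinite _)
    have h3 := ncard_both n hn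
    have h4 : ({f : Fin n → Fin n → Fin n | LPerm f} ∩ {f | RPerm f})
        = {f : Fin n → Fin n → Fin n | LPerm f ∧ RPerm f} := rfl
    rw [h4] at h1
    have h5 : (n : ℝ) ^ n * ({f : Fin n → Fin n → Fin n | LPerm f ∧ RPerm f}.ncard : ℝ)
        ≤ (n.factorial : ℝ) ^ n * n.factorial := by exact_mod_cast h3
    have h6 : 2 * (n.factorial : ℝ) ^ n ≤ ((SurjR n).ncard : ℝ)
        + ({f : Fin n → Fin n → Fin n | LPerm f ∧ RPerm f}.ncard : ℝ) := by
      exact_mod_cast (by omega : 2 * n.factorial ^ n ≤ (SurjR n).ncard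
        + {f : Fin n → Fin n → Fin n | LPerm f ∧ RPerm f}.ncard)
    rw [le_div_iff₀ hf, sub_mul]
    have h7 : ({f : Fin n → Fin n → Fin n | LPerm f ∧ RPerm f}.ncard : ℝ)
        ≤ (n.factorial : ℝ) / (n : ℝ) ^ n * (n.factorial : ℝ) ^ n := by
      rw [div_mul_eq_mul_div, le_div_iff₀ hn0]
      linarith
    linarith
  · filter_upwards [Filter.eventually_ge_atTop n₀, Filter.eventually_ge_atTop 2] with n hn hn2
    have hf : (0 : ℝ) < (n.factorial : ℝ) ^ n := by
      have : (0 : ℝ) < (n.factorial : ℝ) := by exact_mod_cast Nat.factorial_pos n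
      positivity
    have h1 := hn₀ n hn
    have h2 : (SurjR n).ncard ≤ 2 * n.factorial ^ n + (BadR n).ncard := by
      rw [surj_eq]
      have e1 := Set.ncard_union_le ({f : Fin n → Fin n → Fin n | LPerm f} ∪ {f | RPerm f}) (BadR n)
      have e2 := Set.ncard_union_le {f : Fin n → Fin n → Fin n | LPerm f} {f | RPerm f}
      rw [ncard_lperm, ncard_rperm] at e2
      omega
    have h3 : ((SurjR n).ncard : ℝ) ≤ 2 * (n.factorial : ℝ) ^ n + ((BadR n).ncard : ℝ) := by
      exact_mod_cast h2
    have h4 : (2 : ℝ) ^ (-((1 - 1 / 2) * (n : ℝ) ^ 2)) ≤ (1 / 2) ^ n := by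
      have hn2' : (2 : ℝ) ≤ n := by exact_mod_cast hn2
      have e1 : ((1 / 2 : ℝ)) ^ n = 2 ^ (-(n : ℝ)) := by
        rw [rpow_neg two_pos.le, rpow_natCast, one_div, inv_pow]
      rw [e1]
      apply rpow_le_rpow_of_exponent_le one_le_two
      nlinarith
    rw [div_le_iff₀ hf, add_mul]
    have h5 : ((BadR n).ncard : ℝ) ≤ (1 / 2) ^ n * (n.factorial : ℝ) ^ n :=
      h1.trans (mul_le_mul_of_nonneg_right h4 hf.le)
    linarith

end PermCA
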