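import Mathlib

/-!
# Counting the maps with prescribed images of small sets
-/

open Finset

namespace PermCA

variable {A : Type} [Fintype A] [DecidableEq A]

theorem fact_pow_le {p h : ℕ} (hp : p ≤ h) : p.factorial ^ h ≤ h.factorial ^ p := by
  induction h, hp using Nat.le_induction with
  | base => exact le_rfl
  | succ h hph ih =>
    rw [pow_succ, Nat.factorial_succ, mul_pow, mul_comm]
    apply Nat.mul_le_mul _ ih
    calc p.factorial ≤ p ^ p := Nat.factorial_le_pow p
      _ ≤ (h + 1) ^ p := Nat.pow_le_pow_left (by omega) p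

/-- The maps which agree with `r` on `S` and outside of the sets of the list, and which are
injective with prescribed image on every set of the list. -/
def Ts (L : List (Finset A × Finset A)) (S : Finset A) (r : A → A) : Set (A → A) :=
  {φ | (∀ a ∈ S, φ a = r a) ∧ (∀ z ∈ L, Set.InjOn φ z.1 ∧ z.1.image φ = z.2) ∧
    ∀ a, a ∉ S → (∀ z ∈ L, a ∉ z.1) → φ a = r a}

/-- The union of the sets of the list. -/
def Un (L : List (Finset A × Finset A)) : Finset A := univ.filter fun a => ∃ z ∈ L, a ∈ z.1

open Classical in
theorem card_Ts_le {h : ℕ} (L : List (Finset A × Finset A)) :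
    ∀ (S : Finset A) (r : A → A), (∀ z ∈ L, z.1.card ≤ h) →
    (univ.filter fun φ => φ ∈ Ts L S r).card ^ h ≤ h.factorial ^ (Un L \ S).card := by
  induction L with
  | nil =>
    intro S r _
    have h1 : (univ.filter fun φ => φ ∈ Ts ([] : List (Finset A × Finset A)) S r).card ≤ 1 := by
      rw [card_le_one]
      intro φ hφ ψ hψ
      simp only [mem_filter, mem_univ, true_and, Ts, Set.mem_ofPred_eq] at hφ hψ
      funext a
      by_cases ha : a ∈ S
      · rw [hφ.1 a ha, hψ.1 a ha]
      · rw [hφ.2.2 a ha (by simp), hψ.2.2 a ha (by simp)]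
    calc (univ.filter fun φ => φ ∈ Ts ([] : List (Finset A × Finset A)) S r).card ^ h
        ≤ 1 ^ h := Nat.pow_le_pow_left h1 h
      _ = 1 := one_pow h
      _ ≤ _ := Nat.one_le_pow _ _ (Nat.factorial_pos h)
  | cons z L ih =>
    obtain ⟨P, I⟩ := z
    intro S r hc
    set T : Finset (A → A) := univ.filter fun φ => φ ∈ Ts ((P, I) :: L) S r with hT
    let κ : (A → A) → (A → A) := fun φ a => if a ∈ P \ S then φ a else r a
    rcases T.eq_empty_or_nonempty with hemp | ⟨φ₀, hφ₀⟩
    · rw [hemp, card_empty]
      rcases Nat.eq_zero_or_pos h with h0 | h0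
      · subst h0; simp
      · rw [zero_pow h0.ne']; exact Nat.zero_le _
    have hmemT : ∀ φ ∈ T, φ ∈ Ts ((P, I) :: L) S r := by
      intro φ hφ
      simpa [hT] using hφ
    -- the fibres
    have hfib : ∀ ρ ∈ T.image κ, (T.filter fun φ => κ φ = ρ).card ^ h
        ≤ h.factorial ^ (Un L \ (S ∪ P)).card := by
      intro ρ _
      refine le_trans (Nat.pow_le_pow_left (card_le_card ?_) h)
        (ih (S ∪ P) ρ fun z hz => hc z (List.mem_cons_of_mem _ hz))
      intro φ hφ
      rw [mem_filter] at hφ
      obtain ⟨hφT, hφρ⟩ := hφ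
      have hφ' := hmemT φ hφT
      simp only [mem_filter, mem_univ, true_and]
      refine ⟨fun a ha => ?_, fun z hz => hφ'.2.1 z (List.mem_cons_of_mem _ hz), fun a ha haL => ?_⟩
      · rw [← hφρ]
        show φ a = if a ∈ P \ S then φ a else r a
        split_ifs with hh
        · rfl
        · rw [mem_sdiff] at hh
          rw [mem_union] at ha
          have haS : a ∈ S := by
            rcases ha with ha | ha
            · exact ha
            · by_contra hcon
              exact hh ⟨ha, hcon⟩
          exact hφ'.1 a haS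
      · rw [← hφρ]
        show φ a = if a ∈ P \ S then φ a else r a
        rw [mem_union] at ha
        push Not at ha
        rw [if_neg (fun hh => ha.2 (mem_sdiff.1 hh).1)]
        refine hφ'.2.2 a ha.1 fun z hz => ?_
        rcases List.mem_cons.1 hz with rfl | hz
        · exact ha.2
        · exact haL z hz
    -- the image
    have himg : (T.image κ).card ≤ (P \ S).card.factorial := by
      set J : Finset A := I \ (P ∩ S).image r with hJ
      have hJc : J.card = (P \ S).card := by
        have h0 := hmemT φ₀ hφ₀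
        obtain ⟨hinj, himg⟩ := h0.2.1 (P, I) List.mem_cons_self
        simp only at hinj himg
        have e1 : (P ∩ S).image r = (P ∩ S).image φ₀ := by
          apply image_congr
          intro a ha
          exact (h0.1 a (mem_inter.1 (mem_coe.1 ha)).2).symm
        have e2 : (P ∩ S).image r ⊆ I := by
          rw [e1, ← himg]
          exact image_subset_image inter_subset_left
        rw [hJ, card_sdiff_of_subset e2, e1, card_image_of_injOn
          (hinj.mono (by intro a ha; exact (mem_inter.1 (mem_coe.1 ha)).1)), ← himg,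
          card_image_of_injOn hinj]
        have := card_sdiff_add_card_inter P S
        omega
      have hsub : T.image κ ⊆ (univ : Finset (↥(P \ S) ↪ ↥J)).image
          (fun e a => if ha : a ∈ P \ S then (e ⟨a, ha⟩ : A) else r a) := by
        intro ρ hρ
        rw [mem_image] at hρ
        obtain ⟨φ, hφ, rfl⟩ := hρ
        have hφ' := hmemT φ hφ
        obtain ⟨hinj, himg⟩ := hφ'.2.1 (P, I) List.mem_cons_self
        simp only at hinj himg
        rw [mem_image]
        have hJm : ∀ x : ↥(P \ S), φ x ∈ J := by
          intro x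
          obtain ⟨hxP, hxS⟩ := mem_sdiff.1 x.2
          rw [hJ, mem_sdiff]
          refine ⟨?_, ?_⟩
          · rw [← himg]; exact mem_image_of_mem _ hxP
          · rw [mem_image]
            rintro ⟨y, hy, hyx⟩
            rw [mem_inter] at hy
            rw [← hφ'.1 y hy.2] at hyx
            have := hinj (mem_coe.2 hy.1) (mem_coe.2 hxP) hyx
            rw [← this] at hxS
            exact hxS hy.2
        refine ⟨⟨fun x => ⟨φ x, hJm x⟩, fun x y hxy => ?_⟩, mem_univ _, ?_⟩
        · have h1 : φ x = φ y := congrArg Subtype.val hxy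
          exact Subtype.ext (hinj (mem_coe.2 (mem_sdiff.1 x.2).1) (mem_coe.2 (mem_sdiff.1 y.2).1) h1)
        · funext a
          show (if ha : a ∈ P \ S then φ a else r a) = if a ∈ P \ S then φ a else r a
          split_ifs <;> rfl
      calc (T.image κ).card ≤ _ := card_le_card hsub
        _ ≤ (univ : Finset (↥(P \ S) ↪ ↥J)).card := card_image_le
        _ = (P \ S).card.factorial := by
          rw [card_univ, Fintype.card_embedding_eq, Fintype.card_coe, Fintype.card_coe, hJc,
            Nat.descFactorial_self]
    -- conclusion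
    obtain ⟨ρ₀, hρ₀, hsup⟩ := exists_mem_eq_sup (T.image κ) ⟨κ φ₀, mem_image_of_mem _ hφ₀⟩
      (fun ρ => (T.filter fun φ => κ φ = ρ).card)
    have hle := card_le_mul_card_image (f := κ) T
      ((T.image κ).sup fun ρ => (T.filter fun φ => κ φ = ρ).card)
      (fun ρ hρ => le_sup (f := fun ρ => (T.filter fun φ => κ φ = ρ).card) hρ)
    rw [hsup] at hle
    have hPS : (P \ S).card ≤ h :=
      (card_le_card sdiff_subset).trans (hc (P, I) List.mem_cons_self)
    have hcard : (Un ((P, I) :: L) \ S).card = (Un L \ (S ∪ P)).card + (P \ S).card := by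
      have e : Un ((P, I) :: L) \ S = (Un L \ (S ∪ P)) ∪ (P \ S) := by
        ext a
        simp only [Un, mem_sdiff, mem_filter, mem_univ, true_and, mem_union, List.mem_cons,
          exists_eq_or_imp]
        by_cases h1 : a ∈ P <;> by_cases h2 : a ∈ S <;> simp [h1, h2]
      rw [e, card_union_of_disjoint]
      rw [Finset.disjoint_left]
      intro a ha ha'
      rw [mem_sdiff, mem_union] at ha
      exact ha.2 (Or.inr (mem_sdiff.1 ha').1)
    calc T.card ^ h ≤ ((T.filter fun φ => κ φ = ρ₀).card * (T.image κ).card) ^ h :=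
          Nat.pow_le_pow_left hle h
      _ = (T.filter fun φ => κ φ = ρ₀).card ^ h * (T.image κ).card ^ h := mul_pow _ _ _
      _ ≤ h.factorial ^ (Un L \ (S ∪ P)).card * ((P \ S).card.factorial) ^ h :=
          Nat.mul_le_mul (hfib ρ₀ hρ₀) (Nat.pow_le_pow_left himg h)
      _ ≤ h.factorial ^ (Un L \ (S ∪ P)).card * h.factorial ^ (P \ S).card :=
          Nat.mul_le_mul_left _ (fact_pow_le hPS)
      _ = h.factorial ^ (Un ((P, I) :: L) \ S).card := by rw [hcard, pow_add]

open Classical in
/-- The number of maps which are injective with given images on sets `P i` of size at most `h`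
covering `A`. -/
theorem card_cols_le {h d : ℕ} (P I : Fin d → Finset A) (hcov : ∀ a, ∃ i, a ∈ P i)
    (hsz : ∀ i, (P i).card ≤ h) :
    (univ.filter fun φ : A → A => ∀ i, Set.InjOn φ (P i) ∧ (P i).image φ = I i).card ^ h
      ≤ h.factorial ^ Fintype.card A := by
  rcases isEmpty_or_nonempty A with hA | hA
  · have h1 : (univ.filter fun φ : A → A => ∀ i, Set.InjOn φ (P i) ∧ (P i).image φ = I i).card
        ≤ 1 := by
      rw [card_le_one]
      intro φ _ ψ _
      exact Subsingleton.elim _ _
    calc _ ≤ 1 ^ h := Nat.pow_le_pow_left h1 h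
      _ = 1 := one_pow h
      _ ≤ _ := Nat.one_le_pow _ _ (Nat.factorial_pos h)
  let L : List (Finset A × Finset A) := List.ofFn fun i => (P i, I i)
  have hL : ∀ z ∈ L, ∃ i, z = (P i, I i) := by
    intro z hz
    obtain ⟨i, hi⟩ := (List.mem_ofFn' _ _).1 hz
    exact ⟨i, hi.symm⟩
  have hL' : ∀ i, (P i, I i) ∈ L := fun i => (List.mem_ofFn' _ _).2 ⟨i, rfl⟩
  let r : A → A := id
  have h1 := card_Ts_le (h := h) L ∅ r (by
    intro z hz
    obtain ⟨i, rfl⟩ := hL z hz
    exact hsz i)
  refine le_trans (Nat.pow_le_pow_left (card_le_card ?_) h) (h1.trans ?_)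
  · intro φ hφ
    simp only [mem_filter, mem_univ, true_and] at hφ ⊢
    refine ⟨by simp, fun z hz => ?_, fun a _ ha => ?_⟩
    · obtain ⟨i, rfl⟩ := hL z hz
      exact hφ i
    · obtain ⟨i, hi⟩ := hcov a
      exact absurd hi (ha _ (hL' i))
  · exact Nat.pow_le_pow_right (Nat.factorial_pos h) (card_le_univ _)

end PermCA
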