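import Pool.Agent.Lib_c1afad_ap.Lin

/-!
# Coordinates on a subspace
-/

open Finset

namespace PermCA

variable {A : Type} [Fintype A] [DecidableEq A]

/-- A subspace of dimension `d` of the space of functions on `A` is determined by the values at some
set of `d` points. -/
theorem exists_coord (U : Submodule ℚ (A → ℚ)) :
    ∃ D : Finset A, D.card = Module.finrank ℚ U ∧ ∃ lam : A → A → ℚ,
      (∀ u ∈ U, ∀ b, u b = ∑ a ∈ D, lam b a * u a) ∧
      (∀ a₀ ∈ D, (fun a => lam a a₀) ∈ U) ∧
      (∀ a ∈ D, ∀ a₀ ∈ D, lam a a₀ = if a = a₀ then 1 else 0) := by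
  classical
  let S : Finset (Finset A) := univ.filter fun D => ∀ u ∈ U, (∀ a ∈ D, u a = 0) → u = 0
  have hS : S.Nonempty := by
    refine ⟨univ, ?_⟩
    simp only [S, mem_filter, mem_univ, true_and]
    intro u _ h
    funext a
    exact h a trivial
  obtain ⟨D, hD, hmin⟩ := exists_min_image S card hS
  have hgood : ∀ u ∈ U, (∀ a ∈ D, u a = 0) → u = 0 := by
    simpa only [S, mem_filter, mem_univ, true_and] using hD
  have hdual : ∀ a₀ : A, ∃ v : A → ℚ, v ∈ U ∧ (a₀ ∈ D → ∀ a ∈ D, v a = if a = a₀ then 1 else 0) := by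
    intro a₀
    by_cases ha₀ : a₀ ∈ D
    · have hnot : D.erase a₀ ∉ S := by
        intro hmem
        have h1 := hmin _ hmem
        have h2 := card_erase_lt_of_mem ha₀
        omega
      simp only [S, mem_filter, mem_univ, true_and] at hnot
      push Not at hnot
      obtain ⟨u, huU, hu0, hune⟩ := hnot
      have hua : u a₀ ≠ 0 := by
        intro h0
        apply hune
        apply hgood u huU
        intro a ha
        by_cases hh : a = a₀
        · rw [hh, h0]
        · exact hu0 a (mem_erase.2 ⟨hh, ha⟩)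
      refine ⟨(u a₀)⁻¹ • u, Submodule.smul_mem _ _ huU, fun _ a ha => ?_⟩
      by_cases hh : a = a₀
      · rw [if_pos hh, hh, Pi.smul_apply, smul_eq_mul, inv_mul_cancel₀ hua]
      · rw [if_neg hh, Pi.smul_apply, smul_eq_mul, hu0 a (mem_erase.2 ⟨hh, ha⟩), mul_zero]
    · exact ⟨0, Submodule.zero_mem _, fun h => absurd h ha₀⟩
  choose v hvU hvD using hdual
  have hrep : ∀ u ∈ U, u = ∑ a₀ ∈ D, u a₀ • v a₀ := by
    intro u hu
    have hw : u - ∑ a₀ ∈ D, u a₀ • v a₀ ∈ U :=
      Submodule.sub_mem _ hu (Submodule.sum_mem _ fun a₀ _ => Submodule.smul_mem _ _ (hvU a₀))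
    have h0 := hgood _ hw (by
      intro a ha
      rw [Pi.sub_apply, Finset.sum_apply]
      simp only [Pi.smul_apply, smul_eq_mul]
      rw [Finset.sum_eq_single a]
      · rw [hvD a ha a ha, if_pos rfl]; ring
      · intro b hb hba
        rw [hvD b hb a ha, if_neg (fun h => hba h.symm), mul_zero]
      · intro h; exact absurd ha h)
    exact sub_eq_zero.1 h0
  refine ⟨D, ?_, fun a a₀ => v a₀ a, ?_, fun a₀ _ => hvU a₀, fun a ha a₀ ha₀ => hvD a₀ ha₀ a ha⟩
  · let R : U →ₗ[ℚ] (D → ℚ) :=
      { toFun := fun u a => (u : A → ℚ) a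
        map_add' := fun _ _ => rfl
        map_smul' := fun _ _ => rfl }
    have hinj : Function.Injective R := by
      rw [← LinearMap.ker_eq_bot, eq_bot_iff]
      intro u hu
      rw [LinearMap.mem_ker] at hu
      have : (u : A → ℚ) = 0 := hgood u u.2 fun a ha => congrFun hu ⟨a, ha⟩
      rw [Submodule.mem_bot]
      exact Subtype.ext this
    have hsurj : Function.Surjective R := by
      intro y
      refine ⟨⟨∑ a₀ : D, y a₀ • v a₀, Submodule.sum_mem _ fun a₀ _ =>
        Submodule.smul_mem _ _ (hvU a₀)⟩, ?_⟩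
      funext a
      show (∑ a₀ : D, y a₀ • v a₀) (a : A) = y a
      rw [Finset.sum_apply]
      simp only [Pi.smul_apply, smul_eq_mul]
      rw [Finset.sum_eq_single a]
      · rw [hvD a a.2 a a.2, if_pos rfl, mul_one]
      · intro b _ hba
        rw [hvD b b.2 a a.2, if_neg (fun h => hba (Subtype.ext h.symm)), mul_zero]
      · intro h; exact absurd (mem_univ _) h
    have := (LinearEquiv.ofBijective R ⟨hinj, hsurj⟩).finrank_eq
    rw [this, Module.finrank_fintype_fun_eq_card, Fintype.card_coe]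
  · intro u hu b
    conv_lhs => rw [hrep u hu]
    rw [Finset.sum_apply]
    refine sum_congr rfl fun a _ => ?_
    rw [Pi.smul_apply, smul_eq_mul, mul_comm]

end PermCA
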