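import Mathlib

/-!
# Estimates
-/

namespace PermCA

open Real

theorem log_fact_le (h : ℕ) (hh : 1 ≤ h) :
    log (h.factorial : ℝ) ≤ h * log h - h + 1 + log h := by
  induction h, hh using Nat.le_induction with
  | base => simp
  | succ h hh ih =>
    have hh0 : (0 : ℝ) < h := by exact_mod_cast hh
    have h1 : (0 : ℝ) < (h : ℝ) + 1 := by linarith
    have hf : (0 : ℝ) < (h.factorial : ℝ) := by exact_mod_cast Nat.factorial_pos h
    rw [Nat.factorial_succ]
    push_cast
    rw [log_mul h1.ne' hf.ne']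
    have h2 : 1 - (((h : ℝ) + 1) / h)⁻¹ ≤ log (((h : ℝ) + 1) / h) :=
      one_sub_inv_le_log_of_pos (by positivity)
    rw [log_div h1.ne' hh0.ne', inv_div] at h2
    have h3 : 1 ≤ ((h : ℝ) + 1) * (log ((h : ℝ) + 1) - log h) := by
      have h4 : 1 - (h : ℝ) / (h + 1) = 1 / (h + 1) := by field_simp; ring
      rw [h4] at h2
      calc (1 : ℝ) = ((h : ℝ) + 1) * (1 / (h + 1)) := by field_simp
        _ ≤ _ := mul_le_mul_of_nonneg_left h2 h1.le
    nlinarith

theorem fact_ge (n : ℕ) (hn : 1 ≤ n) : exp (n * (log n - 1)) ≤ (n.factorial : ℝ) := by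
  have hn0 : (0 : ℝ) < n := by exact_mod_cast hn
  have h1 : (n : ℝ) ^ n / n.factorial ≤ exp n := pow_div_factorial_le_exp (n : ℝ) hn0.le n
  have hf : (0 : ℝ) < (n.factorial : ℝ) := by exact_mod_cast Nat.factorial_pos n
  rw [div_le_iff₀ hf] at h1
  have h2 : exp (n * (log n - 1)) * exp n = (n : ℝ) ^ n := by
    rw [← exp_add, show (n : ℝ) * (log n - 1) + n = n * log n by ring, exp_nat_mul, exp_log hn0]
  have h3 : exp (n * (log n - 1)) * exp n ≤ (n.factorial : ℝ) * exp n := by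
    rw [h2]; linarith
  exact le_of_mul_le_mul_right h3 (exp_pos _)

theorem col_bound {n k : ℕ} (hn : 2 ≤ n) (hk : k ^ (n / 2) ≤ (n / 2).factorial ^ n) :
    (k : ℝ) ≤ exp (n * (log n - log 2 - 1) + 3 * (1 + log n)) := by
  rcases Nat.eq_zero_or_pos k with h0 | h0
  · subst h0
    simp only [Nat.cast_zero]
    exact (exp_pos _).le
  obtain ⟨h, hh⟩ : ∃ h, h = n / 2 := ⟨_, rfl⟩
  rw [← hh] at hk
  have h1 : 1 ≤ h := by omega
  have hh0 : (0 : ℝ) < h := by exact_mod_cast h1
  have hk0 : (0 : ℝ) < k := by exact_mod_cast h0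
  have hn0 : (0 : ℝ) < n := by exact_mod_cast (by omega : 0 < n)
  have hf : (0 : ℝ) < (h.factorial : ℝ) := by exact_mod_cast Nat.factorial_pos h
  have h2 : ((k : ℝ)) ^ h ≤ (h.factorial : ℝ) ^ n := by exact_mod_cast hk
  have h3 : (h : ℝ) * log k ≤ n * log (h.factorial : ℝ) := by
    have := log_le_log (by positivity) h2
    rwa [log_pow, log_pow] at this
  have h4 := log_fact_le h h1
  have h5 : (h : ℝ) * log k ≤ n * (h * log h - h + 1 + log h) :=
    h3.trans (mul_le_mul_of_nonneg_left h4 hn0.le)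
  have hlh0 : 0 ≤ log (h : ℝ) := log_nonneg (by exact_mod_cast h1)
  have h6 : (n : ℝ) ≤ 3 * h := by exact_mod_cast (by omega : n ≤ 3 * h)
  have h7 : log (h : ℝ) ≤ log n - log 2 := by
    rw [← log_div hn0.ne' two_ne_zero]
    apply log_le_log hh0
    rw [le_div_iff₀ two_pos]
    exact_mod_cast (by omega : h * 2 ≤ n)
  have hl2 : 0 < log 2 := log_pos one_lt_two
  have h8 : log (k : ℝ) ≤ n * (log n - log 2 - 1) + 3 * (1 + log n) := by
    have h9 : (h : ℝ) * log k ≤ h * (n * (log n - log 2 - 1) + 3 * (1 + log n)) := by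
      have e1 : (n : ℝ) * (h * log h - h + 1 + log h) = h * (n * (log h - 1)) + n * (1 + log h) := by
        ring
      have e2 : (n : ℝ) * (1 + log h) ≤ 3 * h * (1 + log h) :=
        mul_le_mul_of_nonneg_right h6 (by linarith)
      have e3 : (h : ℝ) * (n * (log h - 1)) ≤ h * (n * (log n - log 2 - 1)) := by
        apply mul_le_mul_of_nonneg_left _ hh0.le
        apply mul_le_mul_of_nonneg_left _ hn0.le
        linarith
      have e4 : 3 * (h : ℝ) * (1 + log h) ≤ h * (3 * (1 + log n)) := by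
        have : (h : ℝ) * (3 * (1 + log h)) ≤ h * (3 * (1 + log n)) := by
          apply mul_le_mul_of_nonneg_left _ hh0.le
          linarith
        linarith
      rw [e1] at h5
      have e5 : (h : ℝ) * (n * (log n - log 2 - 1) + 3 * (1 + log n))
          = h * (n * (log n - log 2 - 1)) + h * (3 * (1 + log n)) := by ring
      rw [e5]
      linarith
    exact le_of_mul_le_mul_left h9 hh0
  calc (k : ℝ) = exp (log k) := (exp_log hk0).symm
    _ ≤ _ := exp_le_exp.2 h8

/-- The exponent of the first kind (few columns). -/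
theorem small_real {n d ε : ℝ} (hn : 1 ≤ n) (hε : 0 < ε) (hd0 : 0 ≤ d) (hd : d ≤ ε / 5 * n)
    (hdn : d ≤ n) (hlarge : 10 + 3 * log n ≤ ε / 5 * n) :
    (n * d + n) * log 2 + n * d * log n
        + (n - d) * (n * (log n - log 2 - 1) + 3 * (1 + log n))
      ≤ -((1 - ε) * n ^ 2 * log 2) + n ^ 2 * (log n - 1) - log (2 * (n + 2)) := by
  have hL1 : log 2 < 0.6931471808 := log_two_lt_d9
  have hL0 : 0.6931471803 < log 2 := log_two_gt_d9
  have hl : 0 ≤ log n := log_nonneg hn
  have h1 : log (2 * (n + 2)) ≤ 6 * n := by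
    have := log_le_sub_one_of_pos (show 0 < 2 * (n + 2) by linarith)
    linarith
  have h2 : n * d ≤ n * (ε / 5 * n) := mul_le_mul_of_nonneg_left hd (by linarith)
  have h3 : n * d * (2 * log 2 + 1) ≤ ε / 5 * n ^ 2 * 2.387 := by
    calc n * d * (2 * log 2 + 1) ≤ n * d * 2.387 := by
          apply mul_le_mul_of_nonneg_left (by linarith) (by positivity)
      _ ≤ n * (ε / 5 * n) * 2.387 := by
          apply mul_le_mul_of_nonneg_right h2 (by norm_num)
      _ = _ := by ring
  have h4 : (n - d) * (3 * (1 + log n)) ≤ n * (3 * (1 + log n)) :=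
    mul_le_mul_of_nonneg_right (by linarith) (by linarith)
  have h5 : n * (10 + 3 * log n) ≤ n * (ε / 5 * n) := mul_le_mul_of_nonneg_left hlarge (by linarith)
  have h6 : ε * n ^ 2 * 0.6931471803 ≤ ε * n ^ 2 * log 2 :=
    mul_le_mul_of_nonneg_left hL0.le (by positivity)
  have h7 : n * log 2 ≤ n * 1 := mul_le_mul_of_nonneg_left (by linarith) (by linarith)
  have h8 : 0 ≤ ε * n ^ 2 := by positivity
  nlinarith

/-- The exponent of the second kind (many columns). -/
theorem mid_real {n d ε : ℝ} (hn : 2 ≤ n) (hε : 0 < ε) (hd : ε / 5 * n ≤ d) (hd0 : 0 ≤ d)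
    (h2d : 2 * d ≤ n + 1) (hlarge : 200 ≤ ε * log n) :
    (n * d + n) * log 2 + (n * d + (n - d) ^ 2) * log n
      ≤ -((1 - ε) * n ^ 2 * log 2) + n ^ 2 * (log n - 1) - log (2 * (n + 2)) := by
  have hL1 : log 2 < 0.6931471808 := log_two_lt_d9
  have hL0 : 0.6931471803 < log 2 := log_two_gt_d9
  have hl : 0 ≤ log n := log_nonneg (by linarith)
  have h1 : log (2 * (n + 2)) ≤ 6 * n := by
    have := log_le_sub_one_of_pos (show 0 < 2 * (n + 2) by linarith)
    linarith
  have hdn : d ≤ n := by linarith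
  have h2 : (ε / 5 * n) * (n / 4) ≤ d * (n - d) :=
    mul_le_mul hd (by linarith) (by linarith) hd0
  have h3 : (ε / 5 * n) * (n / 4) * log n ≤ d * (n - d) * log n :=
    mul_le_mul_of_nonneg_right h2 hl
  have h4 : 10 * n ^ 2 ≤ (ε / 5 * n) * (n / 4) * log n := by
    have e : (ε / 5 * n) * (n / 4) * log n = (ε * log n) * (n ^ 2 / 20) := by ring
    rw [e]
    calc 10 * n ^ 2 = 200 * (n ^ 2 / 20) := by ring
      _ ≤ _ := mul_le_mul_of_nonneg_right hlarge (by positivity)
  have h5 : (n * d + n) * log 2 ≤ (n * n + n) * 1 := by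
    apply mul_le_mul
    · have := mul_le_mul_of_nonneg_left hdn (by linarith : (0 : ℝ) ≤ n)
      linarith
    · linarith
    · linarith
    · nlinarith
  have h6 : -(ε * n ^ 2 * log 2) ≤ 0 := by
    have : 0 ≤ ε * n ^ 2 * log 2 := by
      apply mul_nonneg (by positivity) (by linarith)
    linarith
  have h7 : n ^ 2 * log 2 ≤ n ^ 2 * 1 := mul_le_mul_of_nonneg_left (by linarith) (by positivity)
  have h8 : n ≤ n ^ 2 := by nlinarith
  have e1 : (n * d + (n - d) ^ 2) * log n = n ^ 2 * log n - d * (n - d) * log n := by ring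
  have e2 : -((1 - ε) * n ^ 2 * log 2) = -(n ^ 2 * log 2) + ε * n ^ 2 * log 2 := by ring
  rw [e1, e2]
  linarith

theorem eventually_large {ε : ℝ} (hε : 0 < ε) : ∃ n₀ : ℕ, ∀ n : ℕ, n₀ ≤ n →
    2 ≤ n ∧ 10 + 3 * log n ≤ ε / 5 * n ∧ 200 ≤ ε * log n := by
  have h1 : ∀ᶠ n : ℕ in Filter.atTop, 200 / ε ≤ log (n : ℝ) :=
    (tendsto_log_atTop.comp tendsto_natCast_atTop_atTop).eventually_ge_atTop _
  have h2 : ∀ᶠ x : ℝ in Filter.atTop, 10 + 3 * log x ≤ ε / 5 * x := by
    have h3 := isLittleO_log_id_atTop.bound (show 0 < ε / 30 by positivity)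
    filter_upwards [h3, Filter.eventually_ge_atTop (100 / ε), Filter.eventually_ge_atTop 1]
      with x hx hx2 hx3
    rw [id, norm_of_nonneg (log_nonneg hx3), norm_of_nonneg (by linarith)] at hx
    have : 10 ≤ ε / 10 * x := by
      rw [div_le_iff₀ hε] at hx2
      linarith
    linarith
  have h3 : ∀ᶠ n : ℕ in Filter.atTop, 10 + 3 * log (n : ℝ) ≤ ε / 5 * n :=
    tendsto_natCast_atTop_atTop.eventually h2
  obtain ⟨n₀, hn₀⟩ := Filter.eventually_atTop.1 (h1.and (h3.and (Filter.eventually_ge_atTop 2)))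
  refine ⟨n₀, fun n hn => ?_⟩
  obtain ⟨a, b, c⟩ := hn₀ n hn
  refine ⟨c, b, ?_⟩
  rwa [div_le_iff₀ hε, mul_comm] at a

end PermCA
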