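import Pool.Agent.Lib_c1afad_ap.Act

/-!
# A large family of transitive left permutive rules
-/

open Finset

namespace PermCA

variable {A : Type}

/-- Topological transitivity. -/
def Transitive {X : Type} [TopologicalSpace X] (F : X → X) : Prop :=
  ∀ U V : Set X, IsOpen U → IsOpen V → U.Nonempty → V.Nonempty → ∃ n : ℕ, (F^[n] '' U ∩ V).Nonempty

section words

/-- One step on words, written from right to left, with the letter `r` on the right. -/
def stw (f : A → A → A) : A → List A → List A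
  | _, [] => []
  | r, c :: l => f c r :: stw f c l

@[simp] theorem stw_nil (f : A → A → A) (r : A) : stw f r [] = [] := rfl

@[simp] theorem stw_cons (f : A → A → A) (r c : A) (l : List A) :
    stw f r (c :: l) = f c r :: stw f c l := rfl

@[simp] theorem length_stw (f : A → A → A) (l : List A) : ∀ r, (stw f r l).length = l.length := by
  induction l with
  | nil => intro r; rfl
  | cons c l ih => intro r; simp [ih]

theorem stw_surj {f : A → A → A} (h : LPerm f) (l' : List A) :
    ∀ r, ∃ l, l.length = l'.length ∧ stw f r l = l' := by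
  induction l' with
  | nil => intro r; exact ⟨[], rfl, rfl⟩
  | cons c' l' ih =>
    intro r
    obtain ⟨c, hc⟩ := (h r).2 c'
    obtain ⟨l, hl, hl'⟩ := ih c
    refine ⟨c :: l, by simp [hl], ?_⟩
    rw [stw_cons, hl']
    simp only at hc
    rw [hc]

theorem stw_inj {f : A → A → A} (h : LPerm f) (l : List A) :
    ∀ (r : A) (l' : List A), stw f r l = stw f r l' → l.length = l'.length → l = l' := by
  induction l with
  | nil =>
    intro r l' _ hl
    exact (List.eq_nil_of_length_eq_zero hl.symm).symm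
  | cons c l ih =>
    intro r l' he hl
    cases l' with
    | nil => simp at hl
    | cons c' l' =>
      rw [stw_cons, stw_cons, List.cons.injEq] at he
      have hc : c = c' := (h r).1 he.1
      subst hc
      rw [ih c l' he.2 (by simpa using hl)]

/-- `O` is invariant on words of length `L` for the inputs in `I`. -/
def InvW (f : A → A → A) (I : Set A) (L : ℕ) (O : Set (List A)) : Prop :=
  ∀ l : List A, l.length = L → ∀ r ∈ I, (l ∈ O ↔ stw f r l ∈ O)

/-- All letters are connected through pairs `f c r`, `f c r'` with `r, r' ∈ I`. -/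
def Conn (f : A → A → A) (I : Set A) : Prop :=
  ∀ g : A → Prop, (∀ c, ∀ r ∈ I, ∀ r' ∈ I, (g (f c r) ↔ g (f c r'))) → ∀ a a', g a ↔ g a'

theorem Conn.mono {f : A → A → A} {I J : Set A} (h : Conn f I) (hIJ : I ⊆ J) : Conn f J :=
  fun g hg => h g fun c r hr r' hr' => hg c r (hIJ hr) r' (hIJ hr')

theorem inv_head {f : A → A → A} (hl : LPerm f) {I : Set A} {L : ℕ} {O : Set (List A)}
    (hO : InvW f I (L + 1) O) {l : List A} (hlen : l.length = L) (c : A) {r r' : A} (hr : r ∈ I)
    (hr' : r' ∈ I) : (f c r :: l ∈ O ↔ f c r' :: l ∈ O) := by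
  obtain ⟨l₀, h1, h2⟩ := stw_surj hl l c
  have h3 : (c :: l₀).length = L + 1 := by simp [h1, hlen]
  have h4 := hO (c :: l₀) h3 r hr
  have h5 := hO (c :: l₀) h3 r' hr'
  rw [stw_cons, h2] at h4 h5
  rw [← h4, ← h5]

theorem inv_triv {f : A → A → A} (hl : LPerm f) (hc : Conn f Set.univ) (L : ℕ) :
    ∀ (I : Set A) (O : Set (List A)), I.Nonempty → Conn f I → InvW f I L O →
    ∀ l l' : List A, l.length = L → l'.length = L → (l ∈ O ↔ l' ∈ O) := by
  induction L with
  | zero =>
    intro I O _ _ _ l l' h1 h2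
    rw [List.eq_nil_of_length_eq_zero h1, List.eq_nil_of_length_eq_zero h2]
  | succ L ih =>
    intro I O hI hcI hO l l' h1 h2
    obtain ⟨r, hr⟩ := hI
    have key : ∀ (l : List A), l.length = L → ∀ a a', (a :: l ∈ O ↔ a' :: l ∈ O) := by
      intro l hlen
      exact hcI (fun a => a :: l ∈ O) fun c r hr r' hr' => inv_head hl hO hlen c hr hr'
    have hO' : InvW f Set.univ L {l | r :: l ∈ O} := by
      intro l hlen c _
      show r :: l ∈ O ↔ r :: stw f c l ∈ O
      rw [key l hlen r c, hO (c :: l) (by simp [hlen]) r hr, stw_cons]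
      exact key _ (by simp [hlen]) _ _
    cases l with
    | nil => simp at h1
    | cons a l =>
      cases l' with
      | nil => simp at h2
      | cons a' l' =>
        have e1 : l.length = L := by simpa using h1
        have e2 : l'.length = L := by simpa using h2
        rw [key l e1 a r, key l' e2 a' r]
        exact ih Set.univ _ ⟨r, trivial⟩ hc hO' l l' e1 e2

/-- Running the inputs `τ 0, τ 1, ...`. -/
def runW (f : A → A → A) (τ : ℕ → A) : ℕ → List A → List A
  | 0, u => u
  | t + 1, u => stw f (τ t) (runW f τ t u)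

theorem runW_congr (f : A → A → A) {τ τ' : ℕ → A} (u : List A) : ∀ t : ℕ,
    (∀ s, s < t → τ s = τ' s) → runW f τ t u = runW f τ' t u := by
  intro t
  induction t with
  | zero => intro _; rfl
  | succ t ih =>
    intro h
    rw [runW, runW, ih fun s hs => h s (by omega), h t (by omega)]

theorem length_runW (f : A → A → A) (τ : ℕ → A) (u : List A) (t : ℕ) :
    (runW f τ t u).length = u.length := by
  induction t with
  | zero => rfl
  | succ t ih => rw [runW, length_stw, ih]

/-- The words reached from `u` with inputs in `Z`. -/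
def Rch (f : A → A → A) (Z : Set A) (u : List A) : Set (List A) :=
  {l | ∃ τ : ℕ → A, (∀ s, τ s ∈ Z) ∧ ∃ t, runW f τ t u = l}

theorem Rch_fwd {f : A → A → A} {Z : Set A} {u l : List A} (h : l ∈ Rch f Z u) {r : A}
    (hr : r ∈ Z) : stw f r l ∈ Rch f Z u := by
  classical
  obtain ⟨τ, hτ, t, ht⟩ := h
  refine ⟨fun s => if s = t then r else τ s, fun s => ?_, t + 1, ?_⟩
  · show (if s = t then r else τ s) ∈ Z
    split_ifs
    · exact hr
    · exact hτ s
  · rw [runW, if_pos rfl, runW_congr f u t (τ' := τ) fun s hs => if_neg (by omega), ht]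

theorem Rch_length {f : A → A → A} {Z : Set A} {u l : List A} (h : l ∈ Rch f Z u) :
    l.length = u.length := by
  obtain ⟨τ, _, t, ht⟩ := h
  rw [← ht, length_runW]

theorem Rch_inv [Finite A] {f : A → A → A} (hl : LPerm f) {Z : Set A} (u : List A) :
    InvW f Z u.length (Rch f Z u) := by
  intro l hlen r hr
  refine ⟨fun h => Rch_fwd h hr, fun h => ?_⟩
  have hfin : (Rch f Z u).Finite :=
    (List.finite_length_eq A u.length).subset fun l hl => Rch_length hl
  have hmaps : Set.MapsTo (stw f r) (Rch f Z u) (Rch f Z u) := fun l hl => Rch_fwd hl hr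
  have hinj : Set.InjOn (stw f r) (Rch f Z u) := fun l₁ h₁ l₂ h₂ he =>
    stw_inj hl l₁ r l₂ he ((Rch_length h₁).trans (Rch_length h₂).symm)
  have hsurj : Set.SurjOn (stw f r) (Rch f Z u) (Rch f Z u) :=
    ((hfin.injOn_iff_bijOn_of_mapsTo hmaps).1 hinj).surjOn
  obtain ⟨l₁, h₁, he⟩ := hsurj h
  rwa [← stw_inj hl l₁ r l he ((Rch_length h₁).trans hlen.symm)]

/-- The conditions on a rule `f` and a set `Z` of letters. -/
structure Ctl (f : A → A → A) (Z : Set A) : Prop where
  lp : LPerm f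
  ne : Z.Nonempty
  tr : ∀ z ∈ Z, ∀ z' ∈ Z, ∃ w ∈ Z, f z w = z'
  out : ∀ c, c ∉ Z → ∀ r ∈ Z, f c r ∉ Z
  con : ∀ g : A → Prop, (∀ c, ∀ r ∈ Z, ∀ r' ∈ Z, (g (f c r) ↔ g (f c r'))) →
    ∀ b, b ∉ Z → ∀ b', b' ∉ Z → (g b ↔ g b')
  con' : Conn f Zᶜ

theorem reach_all [Finite A] {f : A → A → A} {Z : Set A} (h : Ctl f Z) {b₀ : A} (hb₀ : b₀ ∉ Z)
    (l₀ : List A) {b : A} (hb : b ∉ Z) {l : List A} (hlen : l.length = l₀.length) :
    b :: l ∈ Rch f Z (b₀ :: l₀) := by
  obtain ⟨z, hz⟩ := h.ne
  have hO : InvW f Z (l₀.length + 1) (Rch f Z (b₀ :: l₀)) := Rch_inv h.lp (b₀ :: l₀)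
  have key : ∀ l : List A, l.length = l₀.length → ∀ b, b ∉ Z → ∀ b', b' ∉ Z →
      (b :: l ∈ Rch f Z (b₀ :: l₀) ↔ b' :: l ∈ Rch f Z (b₀ :: l₀)) := by
    intro l hl
    exact h.con (fun b => b :: l ∈ Rch f Z (b₀ :: l₀))
      fun c r hr r' hr' => inv_head h.lp hO hl c hr hr'
  have hO' : InvW f Zᶜ l₀.length {l | b₀ :: l ∈ Rch f Z (b₀ :: l₀)} := by
    intro l hl c hc
    show b₀ :: l ∈ Rch f Z (b₀ :: l₀) ↔ b₀ :: stw f c l ∈ Rch f Z (b₀ :: l₀)
    rw [key l hl b₀ hb₀ c hc, hO (c :: l) (by simp [hl]) z hz, stw_cons]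
    exact key _ (by simp [hl]) _ (h.out c hc z hz) _ hb₀
  have h0 : b₀ :: l₀ ∈ Rch f Z (b₀ :: l₀) := ⟨fun _ => z, fun _ => hz, 0, rfl⟩
  have h1 := inv_triv h.lp (h.con'.mono (Set.subset_univ _)) l₀.length Zᶜ _ ⟨b₀, hb₀⟩ h.con' hO'
    l₀ l rfl hlen
  have h2 : b₀ :: l ∈ Rch f Z (b₀ :: l₀) := h1.1 h0
  exact (key l hlen b₀ hb₀ b hb).1 h2

end words

/-- The word of length `K` ending at the position `M`, from right to left. -/
def wd (y : ℤ → A) : ℤ → ℕ → List A
  | _, 0 => []
  | M, K + 1 => y M :: wd y (M - 1) K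

theorem length_wd (y : ℤ → A) (K : ℕ) : ∀ M, (wd y M K).length = K := by
  induction K with
  | zero => intro M; rfl
  | succ K ih => intro M; simp [wd, ih]

theorem wd_step (f : A → A → A) (y : ℤ → A) (K : ℕ) : ∀ M : ℤ,
    stw f (y (M + 1)) (wd y M K) = wd (CA f y) M K := by
  induction K with
  | zero => intro M; rfl
  | succ K ih =>
    intro M
    rw [wd, wd, stw_cons]
    have := ih (M - 1)
    rw [sub_add_cancel] at this
    rw [this]
    rfl

theorem wd_eq {y y' : ℤ → A} (K : ℕ) : ∀ M : ℤ, wd y M K = wd y' M K →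
    ∀ i : ℤ, i ≤ M → M - K < i → y i = y' i := by
  induction K with
  | zero => intro M _ i h1 h2; simp only [Nat.cast_zero, sub_zero] at h2; omega
  | succ K ih =>
    intro M h i h1 h2
    rw [wd, wd, List.cons.injEq] at h
    rcases eq_or_lt_of_le h1 with rfl | h3
    · exact h.1
    · exact ih (M - 1) h.2 i (by omega) (by push_cast at h2; omega)

theorem continuous_CA [TopologicalSpace A] [DiscreteTopology A] (f : A → A → A) :
    Continuous (CA f) := by
  refine continuous_pi fun i => ?_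
  have h1 : Continuous fun p : A × A => f p.1 p.2 := continuous_of_discreteTopology
  have h2 : Continuous fun x : ℤ → A => (x i, x (i + 1)) :=
    (continuous_apply i).prodMk (continuous_apply (i + 1))
  exact h1.comp h2

theorem surjective_of_transitive [Finite A] [Nontrivial A] [TopologicalSpace A]
    [DiscreteTopology A] {f : A → A → A} (h : Transitive (CA f)) : Function.Surjective (CA f) := by
  classical
  intro y
  by_contra hy
  have hV : IsOpen (Set.range (CA f))ᶜ := (isCompact_range (continuous_CA f)).isClosed.isOpen_compl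
  have hy' : y ∈ (Set.range (CA f))ᶜ := hy
  obtain ⟨I, u, hu, hsub⟩ := isOpen_pi_iff.1 hV y hy'
  obtain ⟨i₀, hi₀⟩ := Infinite.exists_notMem_finset I
  obtain ⟨a, ha⟩ := exists_ne (y i₀)
  have hc : Continuous fun x : ℤ → A => x i₀ := continuous_apply i₀
  have h1 : IsOpen ((Set.range (CA f))ᶜ ∩ {x | x i₀ = y i₀}) :=
    hV.inter ((isOpen_discrete {y i₀}).preimage hc)
  have h2 : IsOpen ((Set.range (CA f))ᶜ ∩ {x | x i₀ ≠ y i₀}) :=
    hV.inter ((isOpen_discrete {y i₀}ᶜ).preimage hc)
  have hz : Function.update y i₀ a ∈ (Set.range (CA f))ᶜ := by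
    apply hsub
    intro i hi
    have : i ≠ i₀ := fun e => hi₀ (e ▸ hi)
    rw [Function.update_of_ne this]
    exact (hu i hi).2
  obtain ⟨n, z, ⟨x, hx, hxz⟩, hzV⟩ := h _ _ h1 h2 ⟨y, hy', rfl⟩
    ⟨Function.update y i₀ a, hz, by simpa using ha⟩
  cases n with
  | zero =>
    have : x = z := hxz
    exact hzV.2 (this ▸ hx.2)
  | succ n =>
    rw [Function.iterate_succ_apply'] at hxz
    exact hzV.1 ⟨_, hxz⟩

theorem transitive_of_ctl [Finite A] [TopologicalSpace A] [DiscreteTopology A] {f : A → A → A}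
    {Z : Set A} (h : Ctl f Z) {b₀ : A} (hb₀ : b₀ ∉ Z) : Transitive (CA f) := by
  classical
  intro U V hU hV ⟨x₀, hx₀⟩ ⟨y₀, hy₀⟩
  rw [isOpen_pi_iff] at hU hV
  obtain ⟨I, u, hu, hsub⟩ := hU x₀ hx₀
  obtain ⟨J, v, hv, hsub'⟩ := hV y₀ hy₀
  obtain ⟨k, hk⟩ : ∃ k : ℕ, ∀ i ∈ I ∪ J, |i| ≤ (k : ℤ) := by
    refine ⟨(I ∪ J).sup fun i => i.natAbs, fun i hi => ?_⟩
    have : i.natAbs ≤ (I ∪ J).sup fun i => i.natAbs := le_sup (f := fun i : ℤ => i.natAbs) hi
    rw [← Int.natCast_natAbs]
    exact_mod_cast this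
  -- the two words
  let M : ℤ := k + 1
  let K : ℕ := 2 * k + 2
  let x₁ : ℤ → A := fun i => if i = M then b₀ else x₀ i
  let y₁ : ℤ → A := fun i => if i = M then b₀ else y₀ i
  have hwx : wd x₁ M K = b₀ :: wd x₁ (M - 1) (2 * k + 1) := by
    show x₁ M :: wd x₁ (M - 1) (2 * k + 1) = _
    simp [x₁]
  have hwy : wd y₁ M K = b₀ :: wd y₁ (M - 1) (2 * k + 1) := by
    show y₁ M :: wd y₁ (M - 1) (2 * k + 1) = _
    simp [y₁]
  have hreach : wd y₁ M K ∈ Rch f Z (wd x₁ M K) := by
    rw [hwx, hwy]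
    exact reach_all h hb₀ _ hb₀ (by rw [length_wd, length_wd])
  obtain ⟨τ, hτ, t, ht⟩ := hreach
  -- the right part
  choose! nx hnx hfnx using h.tr
  let co : ℕ → ℕ → A := fun j => Nat.rec τ (fun _ c s => nx (c s) (c (s + 1))) j
  have hco0 : co 0 = τ := rfl
  have hcoZ : ∀ j s, co j s ∈ Z := by
    intro j
    induction j with
    | zero => exact hτ
    | succ j ih => intro s; exact hnx _ (ih s) _ (ih (s + 1))
  have hcof : ∀ j s, f (co j s) (co (j + 1) s) = co j (s + 1) := fun j s =>
    hfnx _ (hcoZ j s) _ (hcoZ j (s + 1))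
  let x : ℤ → A := fun i => if i ≤ M then x₁ i else co (i - M - 1).toNat 0
  have hright : ∀ (s j : ℕ), ((CA f)^[s] x) (M + 1 + j) = co j s := by
    intro s
    induction s with
    | zero =>
      intro j
      show (if M + 1 + (j : ℤ) ≤ M then x₁ (M + 1 + j) else co (M + 1 + (j : ℤ) - M - 1).toNat 0) = _
      rw [if_neg (by omega)]
      congr 1
      have e : (M + 1 + (j : ℤ) - M - 1).toNat = j := by omega
      rw [e]
    | succ s ih =>
      intro j
      rw [Function.iterate_succ_apply']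
      show f (((CA f)^[s] x) (M + 1 + j)) (((CA f)^[s] x) (M + 1 + j + 1)) = _
      have e : M + 1 + (j : ℤ) + 1 = M + 1 + ((j + 1 : ℕ) : ℤ) := by push_cast; ring
      rw [ih, e, ih, hcof]
  have hrun : ∀ s : ℕ, wd ((CA f)^[s] x) M K = runW f τ s (wd x₁ M K) := by
    intro s
    induction s with
    | zero =>
      show wd x M K = wd x₁ M K
      have hgen : ∀ (K : ℕ) (M' : ℤ), M' ≤ M → wd x M' K = wd x₁ M' K := by
        intro K
        induction K with
        | zero => intro M' _; rfl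
        | succ K ih =>
          intro M' hM'
          rw [wd, wd, ih (M' - 1) (by omega)]
          congr 1
          show (if M' ≤ M then x₁ M' else co (M' - M - 1).toNat 0) = x₁ M'
          rw [if_pos hM']
      exact hgen K M le_rfl
    | succ s ih =>
      rw [Function.iterate_succ_apply', ← wd_step, ih, runW]
      have := hright s 0
      rw [Nat.cast_zero, add_zero] at this
      rw [this]
      rfl
  have hfin := hrun t
  rw [ht] at hfin
  have hagree : ∀ i : ℤ, |i| ≤ k → ((CA f)^[t] x) i = y₀ i := by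
    intro i hi
    rw [abs_le] at hi
    have h1 := wd_eq K M hfin i (by omega) (by omega)
    rw [h1]
    show (if i = M then b₀ else y₀ i) = y₀ i
    rw [if_neg (by omega)]
  refine ⟨t, (CA f)^[t] x, ⟨x, hsub fun i hi => ?_, rfl⟩, hsub' fun j hj => ?_⟩
  · have hik := hk i (mem_union_left _ hi)
    rw [abs_le] at hik
    have : x i = x₀ i := by
      show (if i ≤ M then x₁ i else co (i - M - 1).toNat 0) = x₀ i
      rw [if_pos (by omega)]
      show (if i = M then b₀ else x₀ i) = x₀ i
      rw [if_neg (by omega)]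
    rw [this]
    exact (hu i hi).2
  · rw [hagree j (hk j (mem_union_right _ hj))]
    exact (hv j hj).2

end PermCA
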