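import Pool.Agent.Lib_c1afad_ap.Main
import Pool.Agent.Lib_c1afad_ap.Trans

/-!
# Many transitive rules of window two
-/

open Finset

namespace PermCA

/-- The rules whose cellular automaton is topologically transitive. -/
def TransR (n : ℕ) : Set (Fin n → Fin n → Fin n) := {f | Transitive (CA f)}

theorem transR_subset {n : ℕ} (hn : 2 ≤ n) : TransR n ⊆ SurjR n := by
  have : Nontrivial (Fin n) := Fin.nontrivial_iff_two_le.2 hn
  exact fun f hf => surjective_of_transitive hf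

section fam

variable {A : Type} [DecidableEq A]

/-- The rule of the family. -/
def fam (z0 z1 : A) (ρ : Equiv.Perm A) (g : A → A)
    (τ : (b : {b : A // b ≠ z0 ∧ b ≠ z1}) → Equiv.Perm {b : A // b ≠ z0 ∧ b ≠ z1})
    (a b : A) : A :=
  if hb : b ≠ z0 ∧ b ≠ z1 then
    Equiv.swap z1 (g b) (Equiv.swap z0 b (Equiv.Perm.ofSubtype (τ ⟨b, hb⟩) a))
  else if b = z0 then a else ρ a

variable {z0 z1 : A} {ρ : Equiv.Perm A} {g : A → A}
  {τ : (b : {b : A // b ≠ z0 ∧ b ≠ z1}) → Equiv.Perm {b : A // b ≠ z0 ∧ b ≠ z1}}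

theorem fam_z0 (a : A) : fam z0 z1 ρ g τ a z0 = a := by
  simp [fam]

theorem fam_z1 (h01 : z1 ≠ z0) (a : A) : fam z0 z1 ρ g τ a z1 = ρ a := by
  simp [fam, h01]

theorem fam_mem {b : A} (hb : b ≠ z0 ∧ b ≠ z1) (a : A) : fam z0 z1 ρ g τ a b =
    Equiv.swap z1 (g b) (Equiv.swap z0 b (Equiv.Perm.ofSubtype (τ ⟨b, hb⟩) a)) := by
  rw [fam, dif_pos hb]

theorem fam_z0_left {b : A} (hb : b ≠ z0 ∧ b ≠ z1) (hg : g b ≠ b) :
    fam z0 z1 ρ g τ z0 b = b := by
  rw [fam_mem hb, Equiv.Perm.ofSubtype_apply_of_not_mem _ (by simp), Equiv.swap_apply_left,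
    Equiv.swap_apply_of_ne_of_ne hb.2 (Ne.symm hg)]

theorem fam_z1_left (h01 : z1 ≠ z0) {b : A} (hb : b ≠ z0 ∧ b ≠ z1) :
    fam z0 z1 ρ g τ z1 b = g b := by
  rw [fam_mem hb, Equiv.Perm.ofSubtype_apply_of_not_mem _ (by simp),
    Equiv.swap_apply_of_ne_of_ne h01 (Ne.symm hb.2), Equiv.swap_apply_left]

theorem fam_lperm : LPerm (fam z0 z1 ρ g τ) := by
  intro b
  by_cases hb : b ≠ z0 ∧ b ≠ z1
  · have : (fun a => fam z0 z1 ρ g τ a b) =
        ((Equiv.Perm.ofSubtype (τ ⟨b, hb⟩)).trans ((Equiv.swap z0 b).trans (Equiv.swap z1 (g b)))) := by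
      funext a
      rw [fam_mem hb]
      rfl
    rw [this]
    exact Equiv.bijective _
  · by_cases h0 : b = z0
    · subst h0
      have : (fun a => fam b z1 ρ g τ a b) = id := by
        funext a
        exact fam_z0 a
      rw [this]
      exact Function.bijective_id
    · have : (fun a => fam z0 z1 ρ g τ a b) = ρ := by
        funext a
        rw [fam, dif_neg hb, if_neg h0]
      rw [this]
      exact ρ.bijective

theorem fam_inj : Function.Injective (fam z0 z1 ρ g) := by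
  intro τ τ' h
  funext ⟨b, hb⟩
  apply Equiv.Perm.ofSubtype_injective
  ext a
  have h1 := congrFun (congrFun h a) b
  rw [fam_mem hb, fam_mem hb] at h1
  exact (Equiv.swap z0 b).injective ((Equiv.swap z1 (g b)).injective h1)

/-- The conditions of `Ctl` for the rule of the family. -/
theorem fam_ctl (h01 : z1 ≠ z0) (hρ0 : ρ z0 = z1) (hρ1 : ρ z1 = z0)
    (hcyc : ∀ G : A → Prop, (∀ b, b ≠ z0 → b ≠ z1 → (G b ↔ G (ρ b))) →
      ∀ b b', b ≠ z0 → b ≠ z1 → b' ≠ z0 → b' ≠ z1 → (G b ↔ G b'))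
    (hg : ∀ b, b ≠ z0 → b ≠ z1 → g b ≠ b)
    {c0 c1 c2 : A} (hc0 : c0 ≠ z0 ∧ c0 ≠ z1) (hc1 : c1 ≠ z0 ∧ c1 ≠ z1) (hc2 : c2 ≠ z0 ∧ c2 ≠ z1)
    (hg0 : g c0 = z0) (hg1 : g c1 = z1) (hg2 : g c2 ≠ z0 ∧ g c2 ≠ z1) :
    Ctl (fam z0 z1 ρ g τ) {z0, z1} := by
  have hmem : ∀ b : A, b ∈ ({z0, z1} : Set A)ᶜ ↔ b ≠ z0 ∧ b ≠ z1 := by
    intro b
    simp
  have hmem' : ∀ b : A, b ∉ ({z0, z1} : Set A) ↔ b ≠ z0 ∧ b ≠ z1 := by
    intro b
    simp
  refine ⟨fam_lperm, ⟨z0, by simp⟩, ?_, ?_, ?_, ?_⟩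
  · intro z hz z' hz'
    rw [Set.mem_insert_iff, Set.mem_singleton_iff] at hz hz'
    rcases hz with hz | hz <;> rcases hz' with hz' | hz' <;> rw [hz, hz']
    · exact ⟨z0, by simp, fam_z0 z0⟩
    · exact ⟨z1, by simp, by rw [fam_z1 h01, hρ0]⟩
    · exact ⟨z1, by simp, by rw [fam_z1 h01, hρ1]⟩
    · exact ⟨z0, by simp, fam_z0 z1⟩
  · intro c hc r hr
    rw [hmem'] at hc ⊢
    rcases hr with rfl | rfl
    · rw [fam_z0]
      exact hc
    · rw [fam_z1 h01]
      refine ⟨fun h => hc.2 (ρ.injective ?_), fun h => hc.1 (ρ.injective ?_)⟩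
      · rw [h, hρ1]
      · rw [h, hρ0]
  · intro G hG b hb b' hb'
    rw [hmem'] at hb hb'
    refine hcyc G (fun b _ _ => ?_) b b' hb.1 hb.2 hb'.1 hb'.2
    have := hG b z0 (by simp) z1 (by simp)
    rwa [fam_z0, fam_z1 h01] at this
  · intro G hG
    have h1 : ∀ b b', b ≠ z0 ∧ b ≠ z1 → b' ≠ z0 ∧ b' ≠ z1 → (G b ↔ G b') := by
      intro b b' hb hb'
      have := hG z0 b ((hmem b).2 hb) b' ((hmem b').2 hb')
      rwa [fam_z0_left hb (hg b hb.1 hb.2), fam_z0_left hb' (hg b' hb'.1 hb'.2)] at this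
    have h2 : ∀ b b', b ≠ z0 ∧ b ≠ z1 → b' ≠ z0 ∧ b' ≠ z1 → (G (g b) ↔ G (g b')) := by
      intro b b' hb hb'
      have := hG z1 b ((hmem b).2 hb) b' ((hmem b').2 hb')
      rwa [fam_z1_left h01 hb, fam_z1_left h01 hb'] at this
    have h3 : ∀ a, G a ↔ G (g c2) := by
      intro a
      by_cases ha0 : a = z0
      · rw [ha0, ← hg0]
        exact h2 c0 c2 hc0 hc2
      · by_cases ha1 : a = z1
        · rw [ha1, ← hg1]
          exact h2 c1 c2 hc1 hc2
        · exact h1 a (g c2) ⟨ha0, ha1⟩ hg2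
    intro a a'
    rw [h3 a, h3 a']

end fam

/-- The permutation of the letters: it swaps `0` and `1` and moves the others in one cycle. -/
def rhoF (n : ℕ) (hn : 5 ≤ n) (a : Fin n) : Fin n :=
  if a.val = 0 then ⟨1, by omega⟩ else if a.val = 1 then ⟨0, by omega⟩ else
    if h : a.val + 1 < n then ⟨a.val + 1, h⟩ else ⟨2, by omega⟩

theorem rhoF_bij (n : ℕ) (hn : 5 ≤ n) : Function.Bijective (rhoF n hn) := by
  rw [← Finite.injective_iff_bijective]
  intro a b h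
  have h1 : (rhoF n hn a).val = (rhoF n hn b).val := by rw [h]
  apply Fin.ext
  have ha := a.isLt
  have hb := b.isLt
  unfold rhoF at h1
  split_ifs at h1 <;> simp only at h1 <;> omega

/-- The second letters of the rules. -/
def gF (n : ℕ) (hn : 5 ≤ n) (b : Fin n) : Fin n :=
  if b.val = 2 then ⟨0, by omega⟩ else if b.val = 3 then ⟨1, by omega⟩ else ⟨2, by omega⟩

theorem fam_ctl_fin (n : ℕ) (hn : 5 ≤ n)
    (τ : (b : {b : Fin n // b ≠ ⟨0, by omega⟩ ∧ b ≠ ⟨1, by omega⟩}) →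
      Equiv.Perm {b : Fin n // b ≠ ⟨0, by omega⟩ ∧ b ≠ ⟨1, by omega⟩}) :
    Ctl (fam (⟨0, by omega⟩ : Fin n) ⟨1, by omega⟩ (Equiv.ofBijective _ (rhoF_bij n hn))
      (gF n hn) τ) {⟨0, by omega⟩, ⟨1, by omega⟩} := by
  have hρ : ∀ b : Fin n, 2 ≤ b.val → ∀ h : b.val + 1 < n, rhoF n hn b = ⟨b.val + 1, h⟩ := by
    intro b hb h
    rw [rhoF, if_neg (by omega), if_neg (by omega), dif_pos h]
  refine fam_ctl ?_ ?_ ?_ ?_ ?_ (c0 := ⟨2, by omega⟩) (c1 := ⟨3, by omega⟩) (c2 := ⟨4, by omega⟩)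
    ?_ ?_ ?_ ?_ ?_ ?_
  · simp
  · rw [Equiv.ofBijective_apply]
    simp [rhoF]
  · rw [Equiv.ofBijective_apply]
    simp [rhoF]
  · intro G hG
    have h1 : ∀ m : ℕ, ∀ h : m + 2 < n, (G ⟨2, by omega⟩ ↔ G ⟨m + 2, h⟩) := by
      intro m
      induction m with
      | zero => intro h; exact Iff.rfl
      | succ m ih =>
        intro h
        rw [ih (by omega)]
        have h2 := hG ⟨m + 2, by omega⟩ (by simp [Fin.ext_iff]) (by simp [Fin.ext_iff])
        rw [Equiv.ofBijective_apply, hρ ⟨m + 2, by omega⟩ (by simp) (by simp only; omega)] at h2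
        rw [h2]
    have h3 : ∀ b : Fin n, b ≠ ⟨0, by omega⟩ → b ≠ ⟨1, by omega⟩ → (G ⟨2, by omega⟩ ↔ G b) := by
      intro b hb0 hb1
      have e0 : b.val ≠ 0 := fun h => hb0 (Fin.ext h)
      have e1 : b.val ≠ 1 := fun h => hb1 (Fin.ext h)
      have h4 := h1 (b.val - 2) (by have := b.isLt; omega)
      rw [h4]
      have e : (⟨b.val - 2 + 2, by have := b.isLt; omega⟩ : Fin n) = b := by
        apply Fin.ext
        simp only
        omega
      rw [e]
    intro b b' hb0 hb1 hb0' hb1'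
    rw [← h3 b hb0 hb1, ← h3 b' hb0' hb1']
  · intro b hb0 hb1 h
    have e0 : b.val ≠ 0 := fun h => hb0 (Fin.ext h)
    have e1 : b.val ≠ 1 := fun h => hb1 (Fin.ext h)
    have h1 : (gF n hn b).val = b.val := by rw [h]
    unfold gF at h1
    split_ifs at h1 <;> simp only at h1 <;> omega
  · simp [Fin.ext_iff]
  · simp [Fin.ext_iff]
  · simp [Fin.ext_iff]
  · simp [gF]
  · simp [gF]
  · simp [gF, Fin.ext_iff]

theorem card_trans_ge (n : ℕ) (hn : 5 ≤ n) : ((n - 2).factorial) ^ (n - 2) ≤ (TransR n).ncard := by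
  classical
  let z0 : Fin n := ⟨0, by omega⟩
  let z1 : Fin n := ⟨1, by omega⟩
  have hinj : Function.Injective
      (fam z0 z1 (Equiv.ofBijective _ (rhoF_bij n hn)) (gF n hn)) := fam_inj
  have hrange : Set.range (fam z0 z1 (Equiv.ofBijective _ (rhoF_bij n hn)) (gF n hn)) ⊆ TransR n := by
    rintro _ ⟨τ, rfl⟩
    have h := fam_ctl_fin n hn τ
    refine transitive_of_ctl h (b₀ := ⟨2, by omega⟩) ?_
    simp [Fin.ext_iff]
  have hcard : Fintype.card {b : Fin n // b ≠ z0 ∧ b ≠ z1} = n - 2 := by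
    have e : (univ.filter fun b : Fin n => b ≠ z0 ∧ b ≠ z1) = univ \ {z0, z1} := by
      ext b
      simp
    rw [Fintype.card_subtype, e, card_sdiff_of_subset (subset_univ _), card_univ, Fintype.card_fin,
      card_pair]
    simp [z0, z1, Fin.ext_iff]
  have h1 : (Set.range (fam z0 z1 (Equiv.ofBijective _ (rhoF_bij n hn)) (gF n hn))).ncard
      = ((n - 2).factorial) ^ (n - 2) := by
    rw [← Set.image_univ, Set.ncard_image_of_injective _ hinj, Set.ncard_univ,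
      Nat.card_eq_fintype_card, Fintype.card_fun, Fintype.card_perm, hcard]
  rw [← h1]
  exact Set.ncard_le_ncard hrange (Set.toFinite _)

theorem fact_pow_le_tr (n : ℕ) (hn : 2 ≤ n) :
    n.factorial ^ n ≤ n ^ (4 * n) * (n - 2).factorial ^ (n - 2) := by
  obtain ⟨m, rfl⟩ : ∃ m, n = m + 2 := ⟨n - 2, by omega⟩
  rw [Nat.add_sub_cancel]
  have h1 : (m + 2).factorial ≤ (m + 2) ^ 2 * m.factorial := by
    rw [Nat.factorial_succ, Nat.factorial_succ]
    have : (m + 1 + 1) * ((m + 1) * m.factorial) = ((m + 2) * (m + 1)) * m.factorial := by ring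
    rw [this]
    gcongr
    nlinarith
  have h2 : (m + 2).factorial ≤ (m + 2) ^ (m + 2) := Nat.factorial_le_pow _
  calc (m + 2).factorial ^ (m + 2) = (m + 2).factorial ^ m * (m + 2).factorial ^ 2 := by ring
    _ ≤ ((m + 2) ^ 2 * m.factorial) ^ m * ((m + 2) ^ (m + 2)) ^ 2 := by gcongr
    _ = (m + 2) ^ (2 * m + 2 * (m + 2)) * m.factorial ^ m := by
      rw [mul_pow, ← pow_mul, ← pow_mul, pow_add]
      ring
    _ ≤ (m + 2) ^ (4 * (m + 2)) * m.factorial ^ m := by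
      gcongr
      · omega
      · omega

end PermCA
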