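import Pool.Agent.Lib_c1afad_ap.Coord
import Pool.Agent.Lib_c1afad_ap.Cols

/-!
# Labels, and the number of rules with a given label
-/

open Finset

namespace PermCA

variable {A : Type} [Fintype A] [DecidableEq A]

/-- Coefficients for the space spanned by the sets `P i` and the set of points `D`. -/
structure Coef {d : ℕ} (P : Fin d → Finset A) (D : Finset A) (l : A → A → ℚ) : Prop where
  rep : ∀ u ∈ Sp (Set.range P), ∀ b, u b = ∑ a ∈ D, l b a * u a
  mem : ∀ a₀ ∈ D, (fun a => l a a₀) ∈ Sp (Set.range P)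
  dl : ∀ a ∈ D, ∀ a₀ ∈ D, l a a₀ = if a = a₀ then 1 else 0

/-- A rule with label `(P, D)`. -/
structure Lab (f : A → A → A) {d : ℕ} (P : Fin d → Finset A) (D : Finset A) : Prop where
  inj : ∀ i b, Set.InjOn (fun a => f a b) (P i)
  cov : ∀ a, ∃ i, a ∈ P i
  size : ∀ i, 2 * (P i).card ≤ Fintype.card A
  cardD : D.card = d
  coef : ∃ l, Coef P D l
  tr : ∀ c, ∀ u ∈ Sp (Set.range P), Tr f c u ∈ Sp (Set.range P)

theorem exists_lab {f : A → A → A} (hf : Full f)
    (hh : ∀ P ∈ Fam f, 2 * P.card ≤ Fintype.card A) :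
    ∃ (P : Fin (Module.finrank ℚ (Sp (Fam f))) → Finset A) (D : Finset A), Lab f P D := by
  obtain ⟨g, hg, hsp, -⟩ := Submodule.exists_fun_fin_finrank_span_eq ℚ (ind '' Fam f)
  choose P hP hPg using hg
  have hSp : Sp (Set.range P) = Sp (Fam f) := by
    have e : ind '' Set.range P = Set.range g := by
      ext x
      constructor
      · rintro ⟨_, ⟨i, rfl⟩, rfl⟩
        exact ⟨i, (hPg i).symm⟩
      · rintro ⟨i, rfl⟩
        exact ⟨P i, ⟨i, rfl⟩, hPg i⟩
    unfold Sp
    rw [e, hsp]
  obtain ⟨D, hD, l, h1, h2, h3⟩ := exists_coord (Sp (Set.range P))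
  have htr : ∀ c, ∀ u ∈ Sp (Set.range P), Tr f c u ∈ Sp (Set.range P) := by
    intro c u hu
    rw [hSp] at hu ⊢
    exact Tr_mem c hu
  refine ⟨P, D, ⟨fun i => (fam_act (hP i)).2, ?_, fun i => hh _ (hP i), ?_, ⟨l, h1, h2, h3⟩, htr⟩⟩
  · intro a
    by_contra hcon
    push Not at hcon
    obtain ⟨Q, hQ, haQ⟩ := fam_cover hf a
    have hz : ∀ u ∈ Sp (Set.range P), u a = 0 := by
      intro u hu
      induction hu using Submodule.span_induction with
      | mem x hx =>
        obtain ⟨_, ⟨i, rfl⟩, rfl⟩ := hx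
        simp [ind, hcon i]
      | zero => rfl
      | add x y _ _ hx hy => rw [Pi.add_apply, hx, hy, add_zero]
      | smul t x _ hx => rw [Pi.smul_apply, hx, smul_zero]
    have h4 := hz (ind Q) (by rw [hSp]; exact ind_mem hQ)
    simp [ind, haQ] at h4
  · rw [hD, hSp]

/-- Two rules with the same label which agree on the columns `b ∈ D` have the same images. -/
theorem lab_image {f g : A → A → A} {d : ℕ} {P : Fin d → Finset A} {D : Finset A}
    (hf : Lab f P D) (hg : Lab g P D) (h : ∀ b ∈ D, ∀ a, f a b = g a b) (i : Fin d) (b : A) :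
    (P i).image (fun a => f a b) = (P i).image fun a => g a b := by
  obtain ⟨l, hl⟩ := hf.coef
  have hu : ind (P i) ∈ Sp (Set.range P) := ind_mem ⟨i, rfl⟩
  have key : ∀ c, ind (act f (P i) c) b = ind (act g (P i) c) b := by
    intro c
    rw [← Tr_ind (hf.inj i) c, ← Tr_ind (hg.inj i) c, hl.rep _ (hf.tr c _ hu) b,
      hl.rep _ (hg.tr c _ hu) b]
    refine sum_congr rfl fun a ha => ?_
    congr 1
    simp only [Tr]
    refine sum_congr rfl fun x _ => ?_
    rw [h a ha]
  have key2 : ∀ c, b ∈ act f (P i) c ↔ b ∈ act g (P i) c := by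
    intro c
    have := key c
    simp only [ind] at this
    by_cases h1 : b ∈ act f (P i) c <;> by_cases h2 : b ∈ act g (P i) c <;> simp_all
  ext c
  have := key2 c
  rw [mem_act, mem_act] at this
  simpa only [mem_image] using this

/-- A rule is determined by its label, the columns `b ∈ D` and the entries outside of `D`. -/
theorem lab_eq {f g : A → A → A} {d : ℕ} {P : Fin d → Finset A} {D : Finset A}
    (hf : Lab f P D) (hg : Lab g P D) (h : ∀ b ∈ D, ∀ a, f a b = g a b)
    (h' : ∀ a, a ∉ D → ∀ b, b ∉ D → f a b = g a b) : f = g := by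
  obtain ⟨l, hl⟩ := hf.coef
  funext a₀ b
  by_cases hb : b ∈ D
  · exact h b hb a₀
  by_cases ha₀ : a₀ ∈ D
  swap
  · exact h' a₀ ha₀ b hb
  have hu := hl.mem a₀ ha₀
  have hT : ∀ c, Tr f c (fun a => l a a₀) b = Tr g c (fun a => l a a₀) b := by
    intro c
    rw [hl.rep _ (hf.tr c _ hu) b, hl.rep _ (hg.tr c _ hu) b]
    refine sum_congr rfl fun a ha => ?_
    congr 1
    simp only [Tr]
    refine sum_congr rfl fun x _ => ?_
    rw [h a ha]
  have hsplit : ∀ F : A → A → A, ∀ c, Tr F c (fun a => l a a₀) b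
      = (if F a₀ b = c then 1 else 0) + ∑ a ∈ Dᶜ, if F a b = c then l a a₀ else 0 := by
    intro F c
    unfold Tr
    rw [← sum_add_sum_compl D]
    congr 1
    rw [Finset.sum_eq_single a₀]
    · simp only [hl.dl a₀ ha₀ a₀ ha₀, if_true]
    · intro a ha hne
      simp only [hl.dl a ha a₀ ha₀, if_neg hne, ite_self]
    · intro hh; exact absurd ha₀ hh
  have h1 := hT (f a₀ b)
  rw [hsplit f, hsplit g] at h1
  have h2 : ∑ a ∈ Dᶜ, (if f a b = f a₀ b then l a a₀ else 0)
      = ∑ a ∈ Dᶜ, if g a b = f a₀ b then l a a₀ else 0 := by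
    refine sum_congr rfl fun a ha => ?_
    rw [h' a (mem_compl.1 ha) b hb]
  rw [h2] at h1
  have h3 : (if f a₀ b = f a₀ b then (1 : ℚ) else 0) = if g a₀ b = f a₀ b then 1 else 0 :=
    add_right_cancel h1
  rw [if_pos rfl] at h3
  by_contra hcon
  rw [if_neg (fun hh => hcon hh.symm)] at h3
  exact one_ne_zero h3

open Classical in
/-- First count. -/
theorem card_lab_mid {d : ℕ} (P : Fin d → Finset A) (D : Finset A) (hD : D.card = d) :
    (univ.filter fun f : A → A → A => Lab f P D).card
      ≤ Fintype.card A ^ (Fintype.card A * d + (Fintype.card A - d) ^ 2) := by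
  let ψ : (A → A → A) → (A → D → A) × (↥Dᶜ → ↥Dᶜ → A) :=
    fun f => (fun a b => f a b, fun a b => f a b)
  have hinj : Set.InjOn ψ (univ.filter fun f : A → A → A => Lab f P D : Finset _) := by
    intro f hf g hg he
    simp only [coe_filter, mem_univ, true_and, Set.mem_ofPred_eq] at hf hg
    refine lab_eq hf hg (fun b hb a => ?_) fun a ha b hb => ?_
    · exact congrFun (congrFun (congrArg Prod.fst he) a) ⟨b, hb⟩
    · exact congrFun (congrFun (congrArg Prod.snd he) ⟨a, mem_compl.2 ha⟩) ⟨b, mem_compl.2 hb⟩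
  refine (card_le_card_of_injOn ψ (fun _ _ => mem_coe.2 (mem_univ _)) hinj).trans ?_
  rw [card_univ, Fintype.card_prod, Fintype.card_fun, Fintype.card_fun, Fintype.card_fun,
    Fintype.card_fun, Fintype.card_coe, Fintype.card_coe, card_compl, hD, ← pow_mul, ← pow_mul,
    ← pow_add, mul_comm d, pow_two]

open Classical in
/-- Second count. -/
theorem card_lab_small {d : ℕ} (P : Fin d → Finset A) (D : Finset A) (hD : D.card = d) {N : ℕ}
    (hN : ∀ k : ℕ, k ^ (Fintype.card A / 2) ≤
      (Fintype.card A / 2).factorial ^ Fintype.card A → k ≤ N) :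
    (univ.filter fun f : A → A → A => Lab f P D).card
      ≤ Fintype.card A ^ (Fintype.card A * d) * N ^ (Fintype.card A - d) := by
  let r : (A → A → A) → (A → D → A) := fun f a b => f a b
  have h1 := card_le_mul_card_image_of_maps_to (f := r)
    (s := univ.filter fun f : A → A → A => Lab f P D) (t := univ) (fun _ _ => mem_univ _)
    (N ^ (Fintype.card A - d)) (by
      intro y _
      rcases ((univ.filter fun f : A → A → A => Lab f P D).filter fun f => r f = y).eq_empty_or_nonempty
        with hemp | ⟨g, hg⟩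
      · rw [hemp, card_empty]; exact Nat.zero_le _
      rw [mem_filter, mem_filter] at hg
      have hgL := hg.1.2
      let Φ : ↥Dᶜ → Finset (A → A) := fun b => univ.filter fun φ : A → A =>
        ∀ i, Set.InjOn φ (P i) ∧ (P i).image φ = (P i).image fun a => g a b
      have hΦ : ∀ b, (Φ b).card ≤ N := fun b => hN _ (card_cols_le P _ hgL.cov fun i => by
        have := hgL.size i
        omega)
      let ψ : (A → A → A) → (↥Dᶜ → (A → A)) := fun f b a => f a b
      have hmaps : Set.MapsTo ψ
          (((univ.filter fun f : A → A → A => Lab f P D).filter fun f => r f = y : Finset _))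
          (Fintype.piFinset Φ : Finset _) := by
        intro f hf
        simp only [coe_filter, mem_filter, mem_univ, true_and, Set.mem_ofPred_eq] at hf
        rw [mem_coe, Fintype.mem_piFinset]
        intro b
        simp only [Φ, mem_filter, mem_univ, true_and]
        intro i
        refine ⟨hf.1.inj i b, lab_image hf.1 hgL (fun b hb a => ?_) i b⟩
        have : r f = r g := by rw [hf.2, hg.2]
        exact congrFun (congrFun this a) ⟨b, hb⟩
      have hinj : Set.InjOn ψ
          (((univ.filter fun f : A → A → A => Lab f P D).filter fun f => r f = y : Finset _)) := by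
        intro f hf f' hf' he
        simp only [coe_filter, mem_filter, mem_univ, true_and, Set.mem_ofPred_eq] at hf hf'
        funext a b
        by_cases hb : b ∈ D
        · have : r f = r f' := by rw [hf.2, hf'.2]
          exact congrFun (congrFun this a) ⟨b, hb⟩
        · exact congrFun (congrFun he ⟨b, mem_compl.2 hb⟩) a
      refine (card_le_card_of_injOn ψ hmaps hinj).trans ?_
      rw [Fintype.card_piFinset]
      calc ∏ b, (Φ b).card ≤ ∏ _b : ↥Dᶜ, N := prod_le_prod' fun b _ => hΦ b
        _ = N ^ (Fintype.card A - d) := by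
          rw [prod_const, card_univ, Fintype.card_coe, card_compl, hD])
  refine h1.trans ?_
  rw [card_univ, Fintype.card_fun, Fintype.card_fun, Fintype.card_coe, hD, ← pow_mul, mul_comm d,
    mul_comm]

end PermCA
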