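import Pool.Agent.Lib_c1afad_ap.Act

/-!
# The spaces spanned by the minimal state sets
-/

open Finset

namespace PermCA

variable {A : Type} [Fintype A] [DecidableEq A]

/-- The indicator function. -/
def ind (P : Finset A) : A → ℚ := fun a => if a ∈ P then 1 else 0

/-- The span of the indicators of a family. -/
def Sp (F : Set (Finset A)) : Submodule ℚ (A → ℚ) := Submodule.span ℚ (ind '' F)

omit [Fintype A] in
theorem ind_mem {F : Set (Finset A)} {P : Finset A} (h : P ∈ F) : ind P ∈ Sp F :=
  Submodule.subset_span ⟨P, h, rfl⟩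

theorem ind_dot (P Q : Finset A) : ind P ⬝ᵥ ind Q = ((P ∩ Q).card : ℚ) := by
  unfold dotProduct ind
  have : ∀ a : A, ((if a ∈ P then (1 : ℚ) else 0) * if a ∈ Q then 1 else 0)
      = if a ∈ P ∩ Q then 1 else 0 := by
    intro a
    by_cases h1 : a ∈ P <;> by_cases h2 : a ∈ Q <;> simp [h1, h2]
  rw [sum_congr rfl fun a _ => this a, Finset.sum_ite_mem, univ_inter, sum_const, nsmul_eq_mul,
    mul_one]

/-- If all members of `F` meet all members of `G` in the same number of points, then the
dimensions of the spans add up to at most `|A| + 1`. -/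
theorem finrank_add_le {F G : Set (Finset A)} {m : ℕ} (hF : F.Nonempty)
    (h : ∀ P ∈ F, ∀ Q ∈ G, (P ∩ Q).card = m) :
    Module.finrank ℚ (Sp F) + Module.finrank ℚ (Sp G) ≤ Fintype.card A + 1 := by
  obtain ⟨P₀, hP₀⟩ := hF
  let U₀ : Submodule ℚ (A → ℚ) := Submodule.span ℚ ((fun P => ind P - ind P₀) '' F)
  have horth : ∀ x ∈ U₀, ∀ y ∈ Sp G, x ⬝ᵥ y = 0 := by
    intro x hx y hy
    induction hx using Submodule.span_induction with
    | mem x hx =>
      obtain ⟨P, hP, rfl⟩ := hx
      show (ind P - ind P₀) ⬝ᵥ y = 0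
      induction hy using Submodule.span_induction with
      | mem y hy =>
        obtain ⟨Q, hQ, rfl⟩ := hy
        rw [sub_dotProduct, ind_dot, ind_dot, h P hP Q hQ, h P₀ hP₀ Q hQ, sub_self]
      | zero => simp
      | add y z _ _ hy hz => rw [dotProduct_add, hy, hz, add_zero]
      | smul t y _ hy => rw [dotProduct_smul, hy, smul_zero]
    | zero => simp
    | add x z _ _ hx hz => rw [add_dotProduct, hx, hz, add_zero]
    | smul t x _ hx => rw [smul_dotProduct, hx, smul_zero]
  have hinf : U₀ ⊓ Sp G = ⊥ := by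
    rw [eq_bot_iff]
    intro x hx
    have := horth x hx.1 x hx.2
    rw [dotProduct_self_eq_zero] at this
    simpa using this
  have hle : Sp F ≤ U₀ ⊔ Submodule.span ℚ {ind P₀} := by
    unfold Sp
    rw [Submodule.span_le]
    rintro _ ⟨P, hP, rfl⟩
    have e : ind P = (ind P - ind P₀) + ind P₀ := by ring
    rw [e]
    exact Submodule.add_mem _
      (Submodule.mem_sup_left (Submodule.subset_span ⟨P, hP, rfl⟩))
      (Submodule.mem_sup_right (Submodule.mem_span_singleton_self _))
  have h1 : Module.finrank ℚ (Sp F) ≤ Module.finrank ℚ U₀ + 1 := by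
    have e1 := Submodule.finrank_mono hle
    have e2 := Submodule.finrank_add_le_finrank_add_finrank U₀ (Submodule.span ℚ {ind P₀})
    have e3 : Module.finrank ℚ (Submodule.span ℚ {ind P₀}) ≤ 1 :=
      (finrank_span_le_card ({ind P₀} : Set (A → ℚ))).trans (by simp)
    omega
  have h2 := Submodule.finrank_sup_add_finrank_inf_eq U₀ (Sp G)
  rw [hinf, finrank_bot, add_zero] at h2
  have h3 : Module.finrank ℚ ↥(U₀ ⊔ Sp G) ≤ Fintype.card A := by
    have := Submodule.finrank_le (U₀ ⊔ Sp G)
    rwa [Module.finrank_fintype_fun_eq_card] at this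
  omega

/-- The transfer operator. -/
def Tr (f : A → A → A) (c : A) (u : A → ℚ) : A → ℚ :=
  fun b => ∑ a, if f a b = c then u a else 0

theorem Tr_add (f : A → A → A) (c : A) (u v : A → ℚ) : Tr f c (u + v) = Tr f c u + Tr f c v := by
  funext b
  simp only [Tr, Pi.add_apply]
  rw [← sum_add_distrib]
  refine sum_congr rfl fun a _ => ?_
  split_ifs <;> simp

theorem Tr_smul (f : A → A → A) (c : A) (t : ℚ) (u : A → ℚ) : Tr f c (t • u) = t • Tr f c u := by
  funext b
  simp only [Tr, Pi.smul_apply, smul_eq_mul, mul_sum]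
  refine sum_congr rfl fun a _ => ?_
  split_ifs <;> simp

theorem Tr_zero (f : A → A → A) (c : A) : Tr f c 0 = 0 := by
  funext b
  simp [Tr]

theorem Tr_ind {f : A → A → A} {P : Finset A} (hP : ∀ b, Set.InjOn (fun a => f a b) P) (c : A) :
    Tr f c (ind P) = ind (act f P c) := by
  funext b
  simp only [Tr, ind]
  have e : ∀ a : A, (if f a b = c then (if a ∈ P then (1 : ℚ) else 0) else 0)
      = if a ∈ P.filter (fun a => f a b = c) then 1 else 0 := by
    intro a
    by_cases h1 : f a b = c <;> by_cases h2 : a ∈ P <;> simp [h1, h2]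
  rw [sum_congr rfl fun a _ => e a]
  rw [Finset.sum_ite_mem, univ_inter, sum_const, nsmul_eq_mul, mul_one]
  by_cases hb : b ∈ act f P c
  · rw [if_pos hb]
    obtain ⟨a, ha, hab⟩ := mem_act.1 hb
    have : (P.filter fun a => f a b = c) = {a} := by
      ext x
      simp only [mem_filter, mem_singleton]
      constructor
      · rintro ⟨hx, hxc⟩
        exact hP b hx ha (by show f x b = f a b; rw [hxc, hab])
      · rintro rfl
        exact ⟨ha, hab⟩
    rw [this]
    simp
  · rw [if_neg hb]
    have : (P.filter fun a => f a b = c) = ∅ := by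
      rw [filter_eq_empty_iff]
      intro a ha hab
      exact hb (mem_act.2 ⟨a, ha, hab⟩)
    rw [this]
    simp

theorem Tr_mem {f : A → A → A} (c : A) {u : A → ℚ} (hu : u ∈ Sp (Fam f)) :
    Tr f c u ∈ Sp (Fam f) := by
  induction hu using Submodule.span_induction with
  | mem x hx =>
    obtain ⟨P, hP, rfl⟩ := hx
    rw [Tr_ind (fam_act hP).2]
    exact ind_mem ((fam_act hP).1 c)
  | zero => rw [Tr_zero]; exact Submodule.zero_mem _
  | add x y _ _ hx hy => rw [Tr_add]; exact Submodule.add_mem _ hx hy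
  | smul t x _ hx => rw [Tr_smul]; exact Submodule.smul_mem _ _ hx

end PermCA
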