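import Pool.Agent.Lib_c1afad_ap.Act

/-!
# Permutive rules: surjectivity and density of the jointly periodic points
-/

open Finset

namespace PermCA

variable {A : Type}

/-- The points which are periodic for the shift and for the cellular automaton. -/
def JP {A : Type} (F : (ℤ → A) → ℤ → A) : Set (ℤ → A) :=
  {x | (∃ k : ℤ, 1 ≤ k ∧ ∀ i, x (i + k) = x i) ∧ ∃ T : ℕ, 1 ≤ T ∧ F^[T] x = x}

theorem fl_LPerm {f : A → A → A} (h : RPerm f) : LPerm (fl f) := h

section surj

variable [Finite A] [TopologicalSpace A] [DiscreteTopology A]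

omit [Finite A] [TopologicalSpace A] [DiscreteTopology A] in
theorem lperm_finite {f : A → A → A} (h : LPerm f) [Nonempty A] (y : ℤ → A) (k : ℕ) :
    ∃ x : ℤ → A, ∀ i : ℤ, i ≤ k → f (x i) (x (i + 1)) = y i := by
  choose g hg using fun b c => (h b).2 c
  let z : ℕ → A := fun j => Nat.rec (Classical.arbitrary A) (fun j a => g a (y ((k : ℤ) - j))) j
  have hz : ∀ j : ℕ, f (z (j + 1)) (z j) = y ((k : ℤ) - j) := fun j => hg (z j) _
  refine ⟨fun i => z ((k : ℤ) + 1 - i).toNat, fun i hi => ?_⟩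
  have e1 : ((k : ℤ) + 1 - i).toNat = ((k : ℤ) - i).toNat + 1 := by omega
  have e2 : ((k : ℤ) + 1 - (i + 1)).toNat = ((k : ℤ) - i).toNat := by omega
  show f (z _) (z _) = y i
  rw [e1, e2, hz]
  congr 1
  omega

theorem surjective_of_lperm {f : A → A → A} (h : LPerm f) : Function.Surjective (CA f) := by
  intro y
  have hA : Nonempty A := ⟨y 0⟩
  let X : ℕ → Set (ℤ → A) := fun k => {x | ∀ i : ℤ, i ≤ k → f (x i) (x (i + 1)) = y i}
  have hcl : ∀ k, IsClosed (X k) := by
    intro k
    have : X k = ⋂ i : ℤ, ⋂ _ : i ≤ k, {x : ℤ → A | f (x i) (x (i + 1)) = y i} := by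
      ext x; simp [X]
    rw [this]
    refine isClosed_iInter fun i => isClosed_iInter fun _ => ?_
    refine isClosed_eq ?_ continuous_const
    have h1 : Continuous fun p : A × A => f p.1 p.2 := continuous_of_discreteTopology
    have h2 : Continuous fun x : ℤ → A => (x i, x (i + 1)) :=
      (continuous_apply i).prodMk (continuous_apply (i + 1))
    exact h1.comp h2
  have hne := IsCompact.nonempty_iInter_of_sequence_nonempty_isCompact_isClosed X
    (fun k x hx i hi => hx i (by push_cast; omega))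
    (fun k => lperm_finite h y k) (hcl 0).isCompact hcl
  obtain ⟨x, hx⟩ := hne
  rw [Set.mem_iInter] at hx
  refine ⟨x, funext fun i => ?_⟩
  exact hx i.toNat i (by omega)

theorem surjective_of_rperm {f : A → A → A} (h : RPerm f) : Function.Surjective (CA f) := by
  have := surjective_fl (surjective_of_lperm (fl_LPerm h))
  rwa [fl_fl] at this

end surj

section per

/-- The column map: from two adjacent columns (functions of time) to the next pair. -/
def stp (f : A → A → A) (T : ℕ) (p : (ZMod T → A) × (ZMod T → A)) :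
    (ZMod T → A) × (ZMod T → A) := (p.2, fun t => f (p.1 (t - 1)) (p.2 (t - 1)))

theorem stp_injective {f : A → A → A} (h : LPerm f) (T : ℕ) : Function.Injective (stp f T) := by
  rintro ⟨c, d⟩ ⟨c', d'⟩ he
  simp only [stp, Prod.mk.injEq] at he
  obtain ⟨rfl, he2⟩ := he
  refine Prod.ext ?_ rfl
  funext t
  have := congrFun he2 (t + 1)
  simp only [add_sub_cancel_right] at this
  exact (h (d t)).1 this

/-- The shifted automaton. -/
def Gs (f : A → A → A) (x : ℤ → A) : ℤ → A := fun i => f (x (i - 2)) (x (i - 1))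

theorem Gs_surjective {f : A → A → A} (h : Function.Surjective (CA f)) :
    Function.Surjective (Gs f) := by
  intro y
  obtain ⟨x, hx⟩ := h fun i => y (i + 2)
  refine ⟨x, funext fun i => ?_⟩
  have := congrFun hx (i - 2)
  simp only [CA] at this
  have e1 : i - 2 + 1 = i - 1 := by ring
  have e2 : i - 2 + 2 = i := by ring
  rw [e1, e2] at this
  exact this

theorem lperm_window [Finite A] {f : A → A → A} (h : LPerm f) (hs : Function.Surjective (CA f))
    (x : ℤ → A) (k : ℕ) : ∃ y ∈ JP (CA f), ∀ i : ℤ, |i| ≤ k → y i = x i := by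
  classical
  obtain ⟨z, hz⟩ := (Gs_surjective hs).iterate k x
  obtain ⟨T, hT⟩ : ∃ T, T = 2 * k + 1 := ⟨_, rfl⟩
  have : NeZero T := ⟨by omega⟩
  let E : Equiv.Perm ((ZMod T → A) × (ZMod T → A)) :=
    Equiv.ofBijective (stp f T) (Finite.injective_iff_bijective.1 (stp_injective h T))
  have hE : ∀ p, E p = (p.2, fun t => f (p.1 (t - 1)) (p.2 (t - 1))) := fun p => rfl
  let s₀ : (ZMod T → A) × (ZMod T → A) :=
    (fun t => ((Gs f)^[t.val] z) 0, fun t => ((Gs f)^[t.val] z) 1)
  have hsucc : ∀ i : ℤ, (E ^ (i + 1)) s₀ = E ((E ^ i) s₀) := by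
    intro i
    rw [add_comm, zpow_add, zpow_one]
    rfl
  have hG : ∀ (τ : ℕ) (i : ℤ), ((Gs f)^[τ + 1] z) i
      = f (((Gs f)^[τ] z) (i - 2)) (((Gs f)^[τ] z) (i - 1)) := by
    intro τ i
    rw [Function.iterate_succ_apply']
    rfl
  -- agreement
  let Ag : ℤ → ℕ → Prop := fun i m => ∀ τ : ℕ, k ≤ τ + m → τ ≤ k + m →
    ((E ^ i) s₀).1 (τ : ZMod T) = ((Gs f)^[τ] z) i ∧
      ((E ^ i) s₀).2 (τ : ZMod T) = ((Gs f)^[τ] z) (i + 1)
  have hbase : Ag 0 k := by
    intro τ _ h2
    have hv : ((τ : ℕ) : ZMod T).val = τ := ZMod.val_cast_of_lt (by omega)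
    rw [zpow_zero]
    constructor
    · show ((Gs f)^[(τ : ZMod T).val] z) 0 = _
      rw [hv]
    · show ((Gs f)^[(τ : ZMod T).val] z) 1 = _
      rw [hv, zero_add]
  have hright : ∀ i m, m + 1 ≤ k → Ag i (m + 1) → Ag (i + 1) m := by
    intro i m hm ha τ h1 h2
    obtain ⟨τ', rfl⟩ : ∃ τ', τ = τ' + 1 := ⟨τ - 1, by omega⟩
    rw [hsucc, hE]
    refine ⟨(ha (τ' + 1) (by omega) (by omega)).2, ?_⟩
    show f (((E ^ i) s₀).1 (((τ' + 1 : ℕ) : ZMod T) - 1)) (((E ^ i) s₀).2 (((τ' + 1 : ℕ) : ZMod T) - 1))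
      = _
    have e : (((τ' + 1 : ℕ) : ZMod T) - 1) = (τ' : ZMod T) := by push_cast; ring
    obtain ⟨h3, h4⟩ := ha τ' (by omega) (by omega)
    have e4 : i + 1 + 1 - 2 = i := by ring
    have e5 : i + 1 + 1 - 1 = i + 1 := by ring
    rw [e, h3, h4, hG, e4, e5]
  have hleft : ∀ i m, Ag i (m + 1) → Ag (i - 1) m := by
    intro i m ha τ h1 h2
    have h5 := hsucc (i - 1)
    rw [sub_add_cancel, hE] at h5
    obtain ⟨h3, _⟩ := ha τ (by omega) (by omega)
    obtain ⟨_, h4⟩ := ha (τ + 1) (by omega) (by omega)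
    rw [h5] at h3 h4
    simp only at h3
    have e : (((τ + 1 : ℕ) : ZMod T) - 1) = (τ : ZMod T) := by push_cast; ring
    have h6 : f (((E ^ (i - 1)) s₀).1 (((τ + 1 : ℕ) : ZMod T) - 1))
        (((E ^ (i - 1)) s₀).2 (((τ + 1 : ℕ) : ZMod T) - 1)) = ((Gs f)^[τ + 1] z) (i + 1) := h4
    rw [e, h3, hG] at h6
    have e2 : i + 1 - 2 = i - 1 := by ring
    have e3 : i + 1 - 1 = i := by ring
    rw [e2, e3] at h6
    refine ⟨(h _).1 h6, ?_⟩
    rw [h3, sub_add_cancel]
  have hpos : ∀ j : ℕ, j ≤ k → Ag j (k - j) := by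
    intro j
    induction j with
    | zero => intro _; simpa using hbase
    | succ j ih =>
      intro hj
      have h1 := ih (by omega)
      have e : k - j = (k - (j + 1)) + 1 := by omega
      rw [e] at h1
      have := hright _ _ (by omega) h1
      exact_mod_cast this
  have hneg : ∀ j : ℕ, j ≤ k → Ag (-j) (k - j) := by
    intro j
    induction j with
    | zero => intro _; simpa using hbase
    | succ j ih =>
      intro hj
      have h1 := ih (by omega)
      have e : k - j = (k - (j + 1)) + 1 := by omega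
      rw [e] at h1
      have := hleft _ _ h1
      have e2 : (-(j : ℤ) - 1) = -((j + 1 : ℕ) : ℤ) := by push_cast; ring
      rwa [e2] at this
  have hall : ∀ i : ℤ, |i| ≤ k → ((E ^ i) s₀).1 (k : ZMod T) = x i := by
    intro i hi
    rw [abs_le] at hi
    rcases le_total 0 i with h0 | h0
    · have := (hpos i.toNat (by omega) k (by omega) (by omega)).1
      rw [Int.toNat_of_nonneg h0, hz] at this
      exact this
    · have := (hneg (-i).toNat (by omega) k (by omega) (by omega)).1
      rw [Int.toNat_of_nonneg (by omega), neg_neg, hz] at this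
      exact this
  -- iteration
  have hCA : ∀ t : ZMod T, CA f (fun i : ℤ => ((E ^ i) s₀).1 t)
      = fun i : ℤ => ((E ^ (i + 2)) s₀).1 (t + 1) := by
    intro t
    funext i
    have e : i + 2 = (i + 1) + 1 := by ring
    rw [e, hsucc, hE, hsucc, hE]
    show f (((E ^ i) s₀).1 t) (((E ^ (i + 1)) s₀).1 t)
      = f (((E ^ i) s₀).1 (t + 1 - 1)) (((E ^ i) s₀).2 (t + 1 - 1))
    rw [hsucc, hE, add_sub_cancel_right]
  have hiter : ∀ (m : ℕ) (t : ZMod T), (CA f)^[m] (fun i : ℤ => ((E ^ i) s₀).1 t)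
      = fun i : ℤ => ((E ^ (i + 2 * (m : ℤ))) s₀).1 (t + m) := by
    intro m
    induction m with
    | zero => intro t; simp
    | succ m ih =>
      intro t
      rw [Function.iterate_succ_apply', ih]
      have h1 : CA f (fun i : ℤ => ((E ^ (i + 2 * (m : ℤ))) s₀).1 (t + m))
          = fun i : ℤ => CA f (fun i : ℤ => ((E ^ i) s₀).1 (t + m)) (i + 2 * m) := by
        funext i
        simp only [CA]
        have e : i + 1 + 2 * (m : ℤ) = i + 2 * m + 1 := by ring
        rw [e]
      rw [h1, hCA]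
      funext i
      have e1 : i + 2 * (m : ℤ) + 2 = i + 2 * ((m + 1 : ℕ) : ℤ) := by push_cast; ring
      have e2 : t + (m : ZMod T) + 1 = t + ((m + 1 : ℕ) : ZMod T) := by push_cast; ring
      simp only [e1, e2]
  have hfin : Finite ((ZMod T → A) × (ZMod T → A)) := inferInstance
  have hK : 0 < orderOf E := orderOf_pos E
  have hKper : ∀ (i : ℤ) (j : ℕ), E ^ (i + (orderOf E : ℤ) * j) = E ^ i := by
    intro i j
    rw [zpow_add, zpow_mul, zpow_natCast E (orderOf E), pow_orderOf_eq_one, one_zpow, mul_one]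
  refine ⟨fun i => ((E ^ i) s₀).1 (k : ZMod T), ⟨⟨orderOf E, by omega, fun i => ?_⟩,
    ⟨T * orderOf E, Nat.mul_pos (by omega) hK, ?_⟩⟩, hall⟩
  · have := hKper i 1
    rw [Nat.cast_one, mul_one] at this
    simp only [this]
  · rw [hiter]
    funext i
    have e1 : i + 2 * ((T * orderOf E : ℕ) : ℤ) = i + (orderOf E : ℤ) * ((2 * T : ℕ) : ℤ) := by
      push_cast; ring
    have e2 : ((T * orderOf E : ℕ) : ZMod T) = 0 := by
      rw [Nat.cast_mul, ZMod.natCast_self, zero_mul]
    rw [e1, hKper, e2, add_zero]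

theorem rperm_window [Finite A] {f : A → A → A} (h : RPerm f) (hs : Function.Surjective (CA f))
    (x : ℤ → A) (k : ℕ) : ∃ y ∈ JP (CA f), ∀ i : ℤ, |i| ≤ k → y i = x i := by
  obtain ⟨y, ⟨⟨K, hK, hyK⟩, T, hT, hyT⟩, hyx⟩ :=
    lperm_window (fl_LPerm h) (surjective_fl hs) (fun i => x (-i)) k
  have hper : ∀ (j : ℕ) (i : ℤ), y (i + K * j) = y i := by
    intro j
    induction j with
    | zero => intro i; simp
    | succ j ih =>
      intro i
      have e : i + K * ((j + 1 : ℕ) : ℤ) = (i + K * j) + K := by push_cast; ring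
      rw [e, hyK, ih]
  have hper' : ∀ (j : ℕ) (i : ℤ), y (i - K * j) = y i := by
    intro j i
    have := hper j (i - K * j)
    rw [sub_add_cancel] at this
    exact this.symm
  have hiter : ∀ m : ℕ, (CA f)^[m] (fun i => y (-i)) = fun i => ((CA (fl f))^[m] y) (-i - m) := by
    intro m
    induction m with
    | zero => simp
    | succ m ih =>
      rw [Function.iterate_succ_apply', ih]
      funext i
      rw [Function.iterate_succ_apply']
      simp only [CA, fl]
      have e1 : -(i + 1) - (m : ℤ) = -i - ((m + 1 : ℕ) : ℤ) := by push_cast; ring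
      have e2 : -i - ((m + 1 : ℕ) : ℤ) + 1 = -i - m := by push_cast; ring
      rw [e1, e2]
  refine ⟨fun i => y (-i), ⟨⟨K, hK, fun i => ?_⟩, T * K.toNat, Nat.mul_pos (by omega) (by omega), ?_⟩,
    fun i hi => ?_⟩
  · have := hper' 1 (-i)
    rw [Nat.cast_one, mul_one] at this
    show y (-(i + K)) = y (-i)
    rw [← this]
    congr 1
    ring
  · rw [hiter]
    have h1 : (CA (fl f))^[T * K.toNat] y = y := by
      rw [Function.iterate_mul]
      exact Function.iterate_fixed hyT _
    rw [h1]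
    funext i
    have e : -i - ((T * K.toNat : ℕ) : ℤ) = -i - K * (T : ℕ) := by
      push_cast
      rw [Int.toNat_of_nonneg (by omega)]
      ring
    rw [e, hper']
  · have := hyx (-i) (by rwa [abs_neg])
    simpa using this

theorem dense_of_window [TopologicalSpace A] [DiscreteTopology A] {S : Set (ℤ → A)}
    (h : ∀ (x : ℤ → A) (k : ℕ), ∃ y ∈ S, ∀ i : ℤ, |i| ≤ k → y i = x i) : Dense S := by
  rw [dense_iff_inter_open]
  intro U hU hne
  obtain ⟨x, hx⟩ := hne
  rw [isOpen_pi_iff] at hU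
  obtain ⟨I, u, hu, hsub⟩ := hU x hx
  obtain ⟨k, hk⟩ : ∃ k : ℕ, ∀ i ∈ I, |i| ≤ (k : ℤ) := by
    refine ⟨I.sup fun i => i.natAbs, fun i hi => ?_⟩
    have : i.natAbs ≤ I.sup fun i => i.natAbs := le_sup (f := fun i : ℤ => i.natAbs) hi
    rw [← Int.natCast_natAbs]
    exact_mod_cast this
  obtain ⟨y, hyS, hy⟩ := h x k
  refine ⟨y, hsub fun i hi => ?_, hyS⟩
  rw [hy i (hk i hi)]
  exact (hu i hi).2

theorem dense_of_perm [Finite A] [TopologicalSpace A] [DiscreteTopology A] {f : A → A → A}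
    (h : LPerm f ∨ RPerm f) : Function.Surjective (CA f) ∧ Dense (JP (CA f)) := by
  rcases h with h | h
  · exact ⟨surjective_of_lperm h, dense_of_window (lperm_window h (surjective_of_lperm h))⟩
  · exact ⟨surjective_of_rperm h, dense_of_window (rperm_window h (surjective_of_rperm h))⟩

end per

end PermCA
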