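import Pool.Agent.Lib_c1afad_ap.Total
import Pool.Agent.Lib_c1afad_ap.Est
import Pool.Agent.Lib_c1afad_ap.Per

/-!
# Almost all surjective rules of window two are permutive
-/

open Finset Real

namespace PermCA

/-- The rules whose cellular automaton is surjective. -/
def SurjR (n : ℕ) : Set (Fin n → Fin n → Fin n) := {f | Function.Surjective (CA f)}

/-- The surjective rules which are neither left nor right permutive. -/
def BadR (n : ℕ) : Set (Fin n → Fin n → Fin n) := {f ∈ SurjR n | ¬ LPerm f ∧ ¬ RPerm f}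

theorem card_lab_real {n d : ℕ} {ε : ℝ} (hε : 0 < ε) (hn : 2 ≤ n)
    (h1 : 10 + 3 * log n ≤ ε / 5 * n) (h2 : 200 ≤ ε * log n) (hd : 2 * d ≤ n + 1)
    (c : ℕ) (hc1 : c ≤ n ^ (n * d + (n - d) ^ 2))
    (hc2 : ∀ N : ℕ, (∀ k : ℕ, k ^ (n / 2) ≤ (n / 2).factorial ^ n → k ≤ N) →
      c ≤ n ^ (n * d) * N ^ (n - d)) :
    ((2 ^ (n * d + n) * c : ℕ) : ℝ)
      ≤ exp (-((1 - ε) * n ^ 2 * log 2) + n ^ 2 * (log n - 1) - log (2 * (n + 2))) := by
  have hn0 : (0 : ℝ) < n := by exact_mod_cast (by omega : 0 < n)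
  have hn1 : (1 : ℝ) ≤ n := by exact_mod_cast (by omega : 1 ≤ n)
  have hn2 : (2 : ℝ) ≤ n := by exact_mod_cast hn
  have hdn : d ≤ n := by omega
  have hd0 : (0 : ℝ) ≤ d := Nat.cast_nonneg d
  have hdn' : (d : ℝ) ≤ n := by exact_mod_cast hdn
  have hcast : ((n - d : ℕ) : ℝ) = (n : ℝ) - d := by rw [Nat.cast_sub hdn]
  have e2 : ((2 : ℝ) ^ (n * d + n)) = exp (((n : ℝ) * d + n) * log 2) := by
    rw [← exp_log (two_pos : (0 : ℝ) < 2), ← exp_nat_mul, log_exp]
    push_cast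
    ring_nf
  rcases le_total (d : ℝ) (ε / 5 * n) with hcase | hcase
  · -- few columns
    let N : ℕ := ⌊exp (n * (log n - log 2 - 1) + 3 * (1 + log n))⌋₊
    have hN := hc2 N (fun k hk => Nat.le_floor (col_bound hn hk))
    have hNle : (N : ℝ) ≤ exp (n * (log n - log 2 - 1) + 3 * (1 + log n)) :=
      Nat.floor_le (exp_pos _).le
    have hcr : (c : ℝ) ≤ exp (n * d * log n)
        * exp ((n - d) * (n * (log n - log 2 - 1) + 3 * (1 + log n))) := by
      calc (c : ℝ) ≤ ((n ^ (n * d) * N ^ (n - d) : ℕ) : ℝ) := by exact_mod_cast hN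
        _ = (n : ℝ) ^ (n * d) * (N : ℝ) ^ (n - d) := by push_cast; rfl
        _ ≤ (n : ℝ) ^ (n * d) * (exp (n * (log n - log 2 - 1) + 3 * (1 + log n))) ^ (n - d) := by
          gcongr
        _ = _ := by
          congr 1
          · rw [← exp_log hn0, ← exp_nat_mul, log_exp, exp_log hn0]
            push_cast
            ring_nf
          · rw [← exp_nat_mul, hcast]
    calc ((2 ^ (n * d + n) * c : ℕ) : ℝ) = (2 : ℝ) ^ (n * d + n) * c := by push_cast; rfl
      _ ≤ exp (((n : ℝ) * d + n) * log 2) * (exp (n * d * log n)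
        * exp ((n - d) * (n * (log n - log 2 - 1) + 3 * (1 + log n)))) := by
        rw [e2]
        gcongr
      _ = exp (((n : ℝ) * d + n) * log 2 + n * d * log n
          + (n - d) * (n * (log n - log 2 - 1) + 3 * (1 + log n))) := by
        rw [← exp_add, ← exp_add]
        ring_nf
      _ ≤ _ := exp_le_exp.2 (small_real hn1 hε hd0 hcase hdn' h1)
  · -- many columns
    have h2d : 2 * (d : ℝ) ≤ n + 1 := by exact_mod_cast hd
    have hcr : (c : ℝ) ≤ exp ((n * d + (n - d) ^ 2) * log n) := by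
      calc (c : ℝ) ≤ ((n ^ (n * d + (n - d) ^ 2) : ℕ) : ℝ) := by exact_mod_cast hc1
        _ = (n : ℝ) ^ (n * d + (n - d) ^ 2) := by push_cast; rfl
        _ = exp (((n * d + (n - d) ^ 2 : ℕ) : ℝ) * log n) := by
          rw [exp_nat_mul, exp_log hn0]
        _ = _ := by
          congr 2
          rw [Nat.cast_add, Nat.cast_mul, Nat.cast_pow, hcast]
    calc ((2 ^ (n * d + n) * c : ℕ) : ℝ) = (2 : ℝ) ^ (n * d + n) * c := by push_cast; rfl
      _ ≤ exp (((n : ℝ) * d + n) * log 2) * exp ((n * d + (n - d) ^ 2) * log n) := by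
        rw [e2]
        gcongr
      _ = exp (((n : ℝ) * d + n) * log 2 + (n * d + (n - d) ^ 2) * log n) := by
        rw [← exp_add]
      _ ≤ _ := exp_le_exp.2 (mid_real hn2 hε hcase hd0 h2d h2)

theorem lperm_card_le (n : ℕ) : (n.factorial) ^ n ≤ (SurjR n).ncard := by
  classical
  let ψ : (Fin n → Equiv.Perm (Fin n)) → (Fin n → Fin n → Fin n) := fun σ a b => σ b a
  have hinj : Function.Injective ψ := by
    intro σ τ h
    funext b
    ext a
    have := congrFun (congrFun h a) b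
    simp only [ψ] at this
    rw [this]
  have hrange : Set.range ψ ⊆ SurjR n := by
    rintro _ ⟨σ, rfl⟩
    exact surjective_of_lperm fun b => (σ b).bijective
  have h1 : (Set.range ψ).ncard = (n.factorial) ^ n := by
    rw [← Set.image_univ, Set.ncard_image_of_injective _ hinj, Set.ncard_univ,
      Nat.card_eq_fintype_card, Fintype.card_fun, Fintype.card_perm, Fintype.card_fin]
  rw [← h1]
  exact Set.ncard_le_ncard hrange (Set.toFinite _)

theorem bad_le {ε : ℝ} (hε : 0 < ε) : ∃ n₀ : ℕ, ∀ n : ℕ, n₀ ≤ n →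
    ((BadR n).ncard : ℝ) ≤ 2 ^ (-((1 - ε) * (n : ℝ) ^ 2)) * (n.factorial : ℝ) ^ n := by
  classical
  obtain ⟨n₀, hn₀⟩ := eventually_large hε
  refine ⟨n₀, fun n hn => ?_⟩
  obtain ⟨hn2, h1, h2⟩ := hn₀ n hn
  have hn0 : (0 : ℝ) < n := by exact_mod_cast (by omega : 0 < n)
  let B : ℕ := ⌊exp (-((1 - ε) * n ^ 2 * log 2) + n ^ 2 * (log n - 1) - log (2 * (n + 2)))⌋₊
  have hB : (Bad (Fin n)).card ≤ 2 * (n + 2) * B := by
    have := card_bad_le (A := Fin n) B (by
      intro d hd P D hD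
      rw [Fintype.card_fin] at hd ⊢
      apply Nat.le_floor
      apply card_lab_real hε hn2 h1 h2 hd
      · have := card_lab_mid P D hD
        rwa [Fintype.card_fin] at this
      · intro N hN
        have := card_lab_small P D hD (N := N) (by rw [Fintype.card_fin]; exact hN)
        rwa [Fintype.card_fin] at this)
    rwa [Fintype.card_fin] at this
  have hBad : (BadR n).ncard = (Bad (Fin n)).card := by
    rw [← Set.ncard_coe_finset]
    congr 1
    ext f
    simp [BadR, SurjR, Bad]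
  have hBr : (B : ℝ) ≤ exp (-((1 - ε) * n ^ 2 * log 2) + n ^ 2 * (log n - 1) - log (2 * (n + 2))) :=
    Nat.floor_le (exp_pos _).le
  have hpos : (0 : ℝ) < 2 * (n + 2) := by linarith
  rw [hBad]
  calc ((Bad (Fin n)).card : ℝ) ≤ ((2 * (n + 2) * B : ℕ) : ℝ) := by exact_mod_cast hB
    _ = 2 * (n + 2) * (B : ℝ) := by push_cast; ring
    _ ≤ 2 * (n + 2) * exp (-((1 - ε) * n ^ 2 * log 2) + n ^ 2 * (log n - 1) - log (2 * (n + 2))) :=
      mul_le_mul_of_nonneg_left hBr hpos.le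
    _ = exp (-((1 - ε) * n ^ 2 * log 2)) * exp (n ^ 2 * (log n - 1)) := by
      rw [exp_sub, exp_add, exp_log hpos]
      field_simp
    _ = 2 ^ (-((1 - ε) * (n : ℝ) ^ 2)) * (exp (n * (log n - 1))) ^ n := by
      congr 1
      · rw [rpow_def_of_pos two_pos]
        congr 1
        ring
      · rw [← exp_nat_mul]
        congr 1
        ring
    _ ≤ 2 ^ (-((1 - ε) * (n : ℝ) ^ 2)) * (n.factorial : ℝ) ^ n := by
      have h3 := fact_ge n (by omega)
      gcongr

theorem bad_share {ε : ℝ} (hε : 0 < ε) : ∃ n₀ : ℕ, ∀ n : ℕ, n₀ ≤ n →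
    ((BadR n).ncard : ℝ) ≤ 2 ^ (-((1 - ε) * (n : ℝ) ^ 2)) * ((SurjR n).ncard : ℝ) := by
  obtain ⟨n₀, hn₀⟩ := bad_le hε
  refine ⟨n₀, fun n hn => (hn₀ n hn).trans ?_⟩
  have h1 : (n.factorial : ℝ) ^ n ≤ ((SurjR n).ncard : ℝ) := by exact_mod_cast lperm_card_le n
  gcongr

theorem noDense_subset (n : ℕ) :
    {f ∈ SurjR n | ¬ Dense (JP (CA f))} ⊆ BadR n := by
  rintro f ⟨hf, hd⟩
  refine ⟨hf, fun h => hd (dense_of_perm (Or.inl h)).2, fun h => hd (dense_of_perm (Or.inr h)).2⟩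

theorem noDense_share {ε : ℝ} (hε : 0 < ε) : ∃ n₀ : ℕ, ∀ n : ℕ, n₀ ≤ n →
    (({f ∈ SurjR n | ¬ Dense (JP (CA f))}.ncard : ℕ) : ℝ)
      ≤ 2 ^ (-((1 - ε) * (n : ℝ) ^ 2)) * ((SurjR n).ncard : ℝ) := by
  obtain ⟨n₀, hn₀⟩ := bad_share hε
  refine ⟨n₀, fun n hn => le_trans ?_ (hn₀ n hn)⟩
  exact_mod_cast Set.ncard_le_ncard (noDense_subset n) (Set.toFinite _)

end PermCA
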