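import Pool.Agent.Lib_c1afad_ap.Family

/-!
# The bad rules are few even among the transitive ones
-/

open Finset Real

namespace PermCA

theorem bad_trans {ε : ℝ} (hε : 0 < ε) : ∃ n₀ : ℕ, 2 ≤ n₀ ∧ ∀ n : ℕ, n₀ ≤ n →
    ((BadR n).ncard : ℝ) ≤ 2 ^ (-((1 - ε) * (n : ℝ) ^ 2)) * ((TransR n).ncard : ℝ) := by
  have hε2 : 0 < ε / 2 := by linarith
  obtain ⟨n₁, hn₁⟩ := bad_le hε2
  obtain ⟨n₂, hn₂⟩ := eventually_large hε2
  refine ⟨max n₁ (max n₂ 5), by omega, fun n hn => ?_⟩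
  have h1 := hn₁ n (le_trans (le_max_left _ _) hn)
  obtain ⟨-, h2, -⟩ := hn₂ n (le_trans (le_trans (le_max_left _ _) (le_max_right _ _)) hn)
  have h5 : 5 ≤ n := le_trans (le_trans (le_max_right _ _) (le_max_right _ _)) hn
  have hn0 : (0 : ℝ) < n := by exact_mod_cast (by omega : 0 < n)
  have h3 : (n.factorial : ℝ) ^ n ≤ (n : ℝ) ^ (4 * n) * ((TransR n).ncard : ℝ) := by
    have e1 : n.factorial ^ n ≤ n ^ (4 * n) * (TransR n).ncard :=
      (fact_pow_le_tr n (by omega)).trans (Nat.mul_le_mul_left _ (card_trans_ge n h5))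
    exact_mod_cast e1
  have h4 : (n : ℝ) ^ (4 * n) ≤ 2 ^ (ε / 2 * (n : ℝ) ^ 2) := by
    have e1 : (n : ℝ) ^ (4 * n) = exp (4 * n * log n) := by
      have : (4 * (n : ℝ) * log n) = ((4 * n : ℕ) : ℝ) * log n := by push_cast; ring
      rw [this, exp_nat_mul, exp_log hn0]
    rw [e1, rpow_def_of_pos two_pos]
    apply exp_le_exp.2
    have e2 : 0.6931471803 < log 2 := log_two_gt_d9
    have e3 : 4 * log n ≤ log 2 * (ε / 2 * n) := by
      have : 0 ≤ ε / 2 * n := by positivity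
      nlinarith
    nlinarith
  calc ((BadR n).ncard : ℝ) ≤ 2 ^ (-((1 - ε / 2) * (n : ℝ) ^ 2)) * (n.factorial : ℝ) ^ n := h1
    _ ≤ 2 ^ (-((1 - ε / 2) * (n : ℝ) ^ 2)) *
        (2 ^ (ε / 2 * (n : ℝ) ^ 2) * ((TransR n).ncard : ℝ)) := by
      gcongr
      exact h3.trans (mul_le_mul_of_nonneg_right h4 (Nat.cast_nonneg _))
    _ = 2 ^ (-((1 - ε) * (n : ℝ) ^ 2)) * ((TransR n).ncard : ℝ) := by
      rw [← mul_assoc, ← rpow_add two_pos]
      congr 2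
      ring

end PermCA
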