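import Pool.Agent.Lib_c1afad_ap.Label

/-!
# The number of surjective rules which are not permutive
-/

open Finset

namespace PermCA

variable {A : Type} [Fintype A] [DecidableEq A]

open Classical in
theorem card_labN_le (d M : ℕ)
    (hM : ∀ (P : Fin d → Finset A) (D : Finset A), D.card = d →
      (univ.filter fun f : A → A → A => Lab f P D).card ≤ M) :
    (univ.filter fun f : A → A → A => ∃ (P : Fin d → Finset A) (D : Finset A), Lab f P D).card
      ≤ 2 ^ (Fintype.card A * d + Fintype.card A) * M := by
  have hsub : (univ.filter fun f : A → A → A => ∃ (P : Fin d → Finset A) (D : Finset A), Lab f P D)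
      ⊆ (univ : Finset ((Fin d → Finset A) × Finset A)).biUnion fun z =>
        univ.filter fun f : A → A → A => Lab f z.1 z.2 := by
    intro f hf
    simp only [mem_filter, mem_univ, true_and] at hf
    obtain ⟨P, D, h⟩ := hf
    rw [mem_biUnion]
    exact ⟨(P, D), mem_univ _, by simpa using h⟩
  refine (card_le_card hsub).trans ((card_biUnion_le_card_mul _ _ M ?_).trans ?_)
  · intro z _
    by_cases hz : z.2.card = d
    · exact hM z.1 z.2 hz
    · have : (univ.filter fun f : A → A → A => Lab f z.1 z.2) = ∅ := by
        rw [filter_eq_empty_iff]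
        intro f _ hf
        exact hz hf.cardD
      rw [this, card_empty]
      exact Nat.zero_le _
  · rw [card_univ, Fintype.card_prod, Fintype.card_fun, Fintype.card_finset, Fintype.card_fin,
      ← pow_mul, ← pow_add]

open Classical in
/-- The surjective rules which are neither left nor right permutive. -/
noncomputable def Bad (A : Type) [Fintype A] [DecidableEq A] : Finset (A → A → A) :=
  univ.filter fun f => Function.Surjective (CA f) ∧ ¬ LPerm f ∧ ¬ RPerm f

theorem exists_small {f : A → A → A} (hs : Function.Surjective (CA f)) (hl : ¬ LPerm f)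
    (hr : ¬ RPerm f) :
    ∃ d, 2 * d ≤ Fintype.card A + 1 ∧
      ((∃ (P : Fin d → Finset A) (D : Finset A), Lab f P D) ∨
        ∃ (P : Fin d → Finset A) (D : Finset A), Lab (fl f) P D) := by
  have hA : Nonempty A := by
    by_contra hcon
    rw [not_nonempty_iff] at hcon
    exact hl fun b => (hcon.false b).elim
  have h1 : Full f := full_of_surjective hs
  have h2 : Full (fl f) := full_of_surjective (surjective_fl hs)
  obtain ⟨P₀, hP₀⟩ := fam_nonempty f
  obtain ⟨Q₀, hQ₀⟩ := fam_nonempty (fl f)
  have h3 := finrank_add_le (F := Fam f) (G := Fam (fl f)) (m := (P₀ ∩ Q₀).card) ⟨P₀, hP₀⟩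
    fun P hP Q hQ => card_inter_const hP hP₀ hQ hQ₀
  rcases le_total (Module.finrank ℚ (Sp (Fam f))) (Module.finrank ℚ (Sp (Fam (fl f)))) with h | h
  · exact ⟨_, by omega, Or.inl (exists_lab h1 fun P hP => fam_half hl hP)⟩
  · exact ⟨_, by omega, Or.inr (exists_lab h2 fun P hP => fam_half hr hP)⟩

open Classical in
theorem card_bad_le (B : ℕ) (hB : ∀ d, 2 * d ≤ Fintype.card A + 1 →
      ∀ (P : Fin d → Finset A) (D : Finset A), D.card = d →
      2 ^ (Fintype.card A * d + Fintype.card A) *
        (univ.filter fun f : A → A → A => Lab f P D).card ≤ B) :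
    (Bad A).card ≤ 2 * (Fintype.card A + 2) * B := by
  let G : ℕ → Finset (A → A → A) := fun d =>
    univ.filter fun f : A → A → A => ∃ (P : Fin d → Finset A) (D : Finset A), Lab f P D
  have hG : ∀ d, 2 * d ≤ Fintype.card A + 1 → (G d).card ≤ B := by
    intro d hd
    have h1 := card_labN_le (A := A) d (B / 2 ^ (Fintype.card A * d + Fintype.card A))
      (fun P D hD => by
        rw [Nat.le_div_iff_mul_le (by positivity), mul_comm]
        exact hB d hd P D hD)
    exact h1.trans (Nat.mul_div_le _ _)
  have hsub : Bad A ⊆ ((range (Fintype.card A + 2)).filter fun d => 2 * d ≤ Fintype.card A + 1).biUnion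
      fun d => G d ∪ (G d).image fl := by
    intro f hf
    simp only [Bad, mem_filter, mem_univ, true_and] at hf
    obtain ⟨d, hd, h⟩ := exists_small hf.1 hf.2.1 hf.2.2
    rw [mem_biUnion]
    refine ⟨d, by simp only [mem_filter, mem_range]; omega, ?_⟩
    rw [mem_union]
    rcases h with h | h
    · left; simpa [G] using h
    · right
      rw [mem_image]
      exact ⟨fl f, by simpa [G] using h, rfl⟩
  refine (card_le_card hsub).trans ((card_biUnion_le_card_mul _ _ (2 * B) ?_).trans ?_)
  · intro d hd
    rw [mem_filter] at hd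
    have h1 := hG d hd.2
    have h2 : ((G d).image fl).card ≤ (G d).card := card_image_le
    have h3 := card_union_le (G d) ((G d).image fl)
    omega
  · have h1 : ((range (Fintype.card A + 2)).filter fun d => 2 * d ≤ Fintype.card A + 1).card
        ≤ Fintype.card A + 2 := by
      calc _ ≤ (range (Fintype.card A + 2)).card := card_filter_le _ _
        _ = _ := card_range _
    calc _ ≤ (Fintype.card A + 2) * (2 * B) := Nat.mul_le_mul_right _ h1
      _ = _ := by ring

end PermCA
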